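import Mathlib
import Pool.Graph.R_seed8.TH688.UC.Chk

set_option autoImplicit false

/-!
# A subdivision check for cubic polynomials in two variables, with a list of alternatives

Used for the local inequalities of the union-closed constant `0.387`.
-/

namespace Pool.Agent.H775.UC387

open Pool.Agent.TH688.UC (m0 nn m0_le m0_nonpos nn_iff mono_bound Hp)

/-- coefficients of `1, x, y, x², xy, y², x³, x²y, xy², y³` -/
structure Cu where
  a0 : Int
  a1 : Int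
  a2 : Int
  a3 : Int
  a4 : Int
  a5 : Int
  a6 : Int
  a7 : Int
  a8 : Int
  a9 : Int

/-- value -/
noncomputable def Cu.ev (b : Cu) (x y : ℝ) : ℝ :=
  b.a0 + b.a1 * x + b.a2 * y + b.a3 * x ^ 2 + b.a4 * (x * y) + b.a5 * y ^ 2 + b.a6 * x ^ 3 +
    b.a7 * (x ^ 2 * y) + b.a8 * (x * y ^ 2) + b.a9 * y ^ 3

/-- lower bound on the square with corner `(X, Y)` and side `w` -/
def Cu.low (b : Cu) (X Y w : Int) : Int :=
  (b.a0 + b.a1 * X + b.a2 * Y + b.a3 * (X * X) + b.a4 * (X * Y) + b.a5 * (Y * Y) +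
    b.a6 * (X * X * X) + b.a7 * (X * X * Y) + b.a8 * (X * Y * Y) + b.a9 * (Y * Y * Y)) +
  w * (m0 (b.a1 + 2 * b.a3 * X + b.a4 * Y + 3 * b.a6 * (X * X) + 2 * b.a7 * (X * Y) +
      b.a8 * (Y * Y)) +
    m0 (b.a2 + b.a4 * X + 2 * b.a5 * Y + b.a7 * (X * X) + 2 * b.a8 * (X * Y) +
      3 * b.a9 * (Y * Y))) +
  w * w * (m0 (b.a3 + 3 * b.a6 * X + b.a7 * Y) + m0 (b.a4 + 2 * b.a7 * X + 2 * b.a8 * Y) +
    m0 (b.a5 + b.a8 * X + 3 * b.a9 * Y)) +
  w * w * w * (m0 b.a6 + m0 b.a7 + m0 b.a8 + m0 b.a9)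

theorem Cu.low_le (b : Cu) {X Y w : Int} {x y : ℝ} (hx0 : (X : ℝ) ≤ x) (hx1 : x ≤ X + w)
    (hy0 : (Y : ℝ) ≤ y) (hy1 : y ≤ Y + w) : ((b.low X Y w : Int) : ℝ) ≤ b.ev x y := by
  obtain ⟨s, hs⟩ : ∃ s, s = x - X := ⟨_, rfl⟩
  obtain ⟨t, ht⟩ : ∃ t, t = y - Y := ⟨_, rfl⟩
  have hx : x = X + s := by rw [hs]; ring
  have hy : y = Y + t := by rw [ht]; ring
  have s0 : 0 ≤ s := by linarith
  have s1 : s ≤ w := by linarith
  have t0 : 0 ≤ t := by linarith
  have t1 : t ≤ w := by linarith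
  have w0 : (0 : ℝ) ≤ w := s0.trans s1
  have ss := mul_nonneg s0 s0
  have st := mul_nonneg s0 t0
  have tt := mul_nonneg t0 t0
  have ss1 := mul_le_mul s1 s1 s0 w0
  have st1 := mul_le_mul s1 t1 t0 w0
  have tt1 := mul_le_mul t1 t1 t0 w0
  have ww := mul_nonneg w0 w0
  have e1 := mono_bound (c := b.a1 + 2 * b.a3 * X + b.a4 * Y + 3 * b.a6 * (X * X) +
    2 * b.a7 * (X * Y) + b.a8 * (Y * Y)) s0 s1
  have e2 := mono_bound (c := b.a2 + b.a4 * X + 2 * b.a5 * Y + b.a7 * (X * X) +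
    2 * b.a8 * (X * Y) + 3 * b.a9 * (Y * Y)) t0 t1
  have e3 := mono_bound (c := b.a3 + 3 * b.a6 * X + b.a7 * Y) ss ss1
  have e4 := mono_bound (c := b.a4 + 2 * b.a7 * X + 2 * b.a8 * Y) st st1
  have e5 := mono_bound (c := b.a5 + b.a8 * X + 3 * b.a9 * Y) tt tt1
  have e6 := mono_bound (c := b.a6) (mul_nonneg ss s0) (mul_le_mul ss1 s1 s0 ww)
  have e7 := mono_bound (c := b.a7) (mul_nonneg ss t0) (mul_le_mul ss1 t1 t0 ww)
  have e8 := mono_bound (c := b.a8) (mul_nonneg st t0) (mul_le_mul st1 t1 t0 ww)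
  have e9 := mono_bound (c := b.a9) (mul_nonneg tt t0) (mul_le_mul tt1 t1 t0 ww)
  have key : b.ev (X + s) (Y + t) =
      (b.a0 + b.a1 * X + b.a2 * Y + b.a3 * (X * X) + b.a4 * (X * Y) + b.a5 * (Y * Y) +
        b.a6 * (X * X * X) + b.a7 * (X * X * Y) + b.a8 * (X * Y * Y) + b.a9 * (Y * Y * Y)) +
      (b.a1 + 2 * b.a3 * X + b.a4 * Y + 3 * b.a6 * (X * X) + 2 * b.a7 * (X * Y) +
        b.a8 * (Y * Y)) * s +
      (b.a2 + b.a4 * X + 2 * b.a5 * Y + b.a7 * (X * X) + 2 * b.a8 * (X * Y) +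
        3 * b.a9 * (Y * Y)) * t +
      (b.a3 + 3 * b.a6 * X + b.a7 * Y) * (s * s) +
      (b.a4 + 2 * b.a7 * X + 2 * b.a8 * Y) * (s * t) +
      (b.a5 + b.a8 * X + 3 * b.a9 * Y) * (t * t) +
      b.a6 * (s * s * s) + b.a7 * (s * s * t) + b.a8 * (s * t * t) + b.a9 * (t * t * t) := by
    unfold Cu.ev; ring
  rw [hx, hy, key]
  unfold Cu.low
  push_cast at e1 e2 e3 e4 e5 e6 e7 e8 e9 ⊢
  linarith [e1, e2, e3, e4, e5, e6, e7, e8, e9]

/-- one of the pairs of polynomials is nonnegative on the square -/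
def anyAlt : List (Cu × Cu) → Int → Int → Int → Bool
  | [], _, _, _ => false
  | p :: l, X, Y, w => (nn (p.1.low X Y w) && nn (p.2.low X Y w)) || anyAlt l X Y w

/-- the square lies outside one of the half planes -/
def anyOut : List Hp → Int → Int → Int → Bool
  | [], _, _, _ => false
  | c :: l, X, Y, w => c.out X Y w || anyOut l X Y w

theorem anyAlt_spec : ∀ (l : List (Cu × Cu)) {X Y w : Int}, anyAlt l X Y w = true →
    ∃ p ∈ l, nn (p.1.low X Y w) = true ∧ nn (p.2.low X Y w) = true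
  | [], _, _, _, h => by simp [anyAlt] at h
  | p :: l, X, Y, w, h => by
    simp only [anyAlt, Bool.or_eq_true, Bool.and_eq_true] at h
    rcases h with h | h
    · exact ⟨p, List.mem_cons_self, h⟩
    · obtain ⟨q, hq, h'⟩ := anyAlt_spec l h
      exact ⟨q, List.mem_cons_of_mem _ hq, h'⟩

theorem anyOut_spec : ∀ (l : List Hp) {X Y w : Int}, anyOut l X Y w = true →
    ∃ c ∈ l, c.out X Y w = true
  | [], _, _, _, h => by simp [anyOut] at h
  | p :: l, X, Y, w, h => by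
    simp only [anyOut, Bool.or_eq_true] at h
    rcases h with h | h
    · exact ⟨p, List.mem_cons_self, h⟩
    · obtain ⟨q, hq, h'⟩ := anyOut_spec l h
      exact ⟨q, List.mem_cons_of_mem _ hq, h'⟩

/-- the subdivision check -/
def chk (al : List (Cu × Cu)) (cs : List Hp) (um : Int) : Nat → Int → Int → Bool
  | 0, _, _ => false
  | n + 1, X, Y =>
    nn (X - um) || anyOut cs X Y (2 ^ (n + 1)) || anyAlt al X Y (2 ^ (n + 1)) ||
    (chk al cs um n X Y && chk al cs um n (X + 2 ^ n) Y &&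
      chk al cs um n X (Y + 2 ^ n) && chk al cs um n (X + 2 ^ n) (Y + 2 ^ n))

theorem chk_spec (al : List (Cu × Cu)) (cs : List Hp) (um : Int) : ∀ (n : Nat) (X Y : Int),
    chk al cs um n X Y = true → ∀ x y : ℝ, (X : ℝ) ≤ x → x ≤ X + 2 ^ n →
    (Y : ℝ) ≤ y → y ≤ Y + 2 ^ n → x < um → (∀ c ∈ cs, 100000000 * y ≤ c.ca + c.cb * x) →
    ∃ p ∈ al, 0 ≤ p.1.ev x y ∧ 0 ≤ p.2.ev x y
  | 0, _, _, h => by simp [chk] at h
  | n + 1, X, Y, h => by
    intro x y hx0 hx1 hy0 hy1 hum h1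
    have hw : (((2 ^ (n + 1) : Int)) : ℝ) = 2 ^ (n + 1) := by push_cast; rfl
    have hx1' : x ≤ X + ((2 ^ (n + 1) : Int) : ℝ) := by rw [hw]; exact hx1
    have hy1' : y ≤ Y + ((2 ^ (n + 1) : Int) : ℝ) := by rw [hw]; exact hy1
    rw [chk] at h
    simp only [Bool.or_eq_true, Bool.and_eq_true] at h
    have e2 : (2 : ℝ) ^ (n + 1) = 2 ^ n + 2 ^ n := by ring
    rw [e2] at hx1 hy1
    rcases h with (((h | h) | h) | h)
    · exfalso
      have := nn_iff h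
      have h' : (um : ℝ) ≤ X := by exact_mod_cast sub_nonneg.1 this
      linarith
    · obtain ⟨c, hc, ho⟩ := anyOut_spec cs h
      exact absurd (h1 c hc) (Hp.out_spec hx0 hx1' hy0 ho)
    · obtain ⟨p, hp, ha, hb⟩ := anyAlt_spec al h
      have a : (0 : ℝ) ≤ ((p.1.low X Y (2 ^ (n + 1)) : Int) : ℝ) := by exact_mod_cast nn_iff ha
      have b : (0 : ℝ) ≤ ((p.2.low X Y (2 ^ (n + 1)) : Int) : ℝ) := by exact_mod_cast nn_iff hb
      exact ⟨p, hp, a.trans (Cu.low_le _ hx0 hx1' hy0 hy1'),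
        b.trans (Cu.low_le _ hx0 hx1' hy0 hy1')⟩
    · obtain ⟨⟨⟨ha, hb⟩, hc⟩, hd⟩ := h
      have e3 : (((X + 2 ^ n : Int)) : ℝ) = X + 2 ^ n := by push_cast; rfl
      have e4 : (((Y + 2 ^ n : Int)) : ℝ) = Y + 2 ^ n := by push_cast; rfl
      rcases le_total x (X + 2 ^ n) with hx | hx <;> rcases le_total y (Y + 2 ^ n) with hy | hy
      · exact chk_spec al cs um n X Y ha x y hx0 hx hy0 hy hum h1
      · exact chk_spec al cs um n X _ hc x y hx0 hx (by rw [e4]; exact hy)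
          (by rw [e4]; linarith) hum h1
      · exact chk_spec al cs um n _ Y hb x y (by rw [e3]; exact hx)
          (by rw [e3]; linarith) hy0 hy hum h1
      · exact chk_spec al cs um n _ _ hd x y (by rw [e3]; exact hx)
          (by rw [e3]; linarith) (by rw [e4]; exact hy) (by rw [e4]; linarith) hum h1

end Pool.Agent.H775.UC387
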