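import Mathlib
import Pool.Agent.H775.UC387.Chk

set_option autoImplicit false

/-!
# The local inequalities of the union-closed constant `0.387`: the ranges
-/

namespace Pool.Agent.H775.UC387

open Pool.Agent.TH688.UC (Hp)

/-- constant term of the linear factor, times `10^8` -/
def l0 (K0 K1 E G D C : Int) : Int :=
  100 * K0 + K1 * G + 44400000 - 10 * E * G - 1000 * D - 1000 * C

/-- coefficient of `u`, times `10^8` -/
def l1 (E G D : Int) : Int := -44400000 + 20 * E * G + 1000 * D

/-- coefficient of `v`, times `10^8` -/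
def l2 (C : Int) : Int := -44400000 + 1000 * C

/-- coefficient of `u²`, times `10^8` -/
def l3 (E G : Int) : Int := -10 * E * G

/-- near the origin -/
def pL (K0 K1 E G D C : Int) : Cu :=
  ⟨l0 K0 K1 E G D C * 10000 * 64000000, (l1 E G D * 10000 - 38586 * 4500000) * 160000,
    (l2 C * 10000 - 38586 * 5500000) * 160000, (l3 E G * 10000 - 38586 * 222 * 2025) * 400,
    (444000000000 - 38586 * 222 * 4950) * 400, (-38586 * 222 * 3025) * 400, 0, 0, 0, 0⟩

/-- golden kernel bound -/
def pA (K0 K1 E G D C : Int) : Cu :=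
  ⟨0, 4500 * l0 K0 K1 E G D C * 160000, 5500 * l0 K0 K1 E G D C * 160000,
    4500 * l1 E G D * 400, (4500 * l2 C + 5500 * l1 E G D - 382000000000) * 400,
    5500 * l2 C * 400, 4500 * l3 E G, 4500 * 44400000 + 5500 * l3 E G - 382 * 222 * 450000,
    5500 * 44400000 - 382 * 222 * 550000, 0⟩

/-- kernel bound with the pair `A / 10^3`, `Q / 10^6` -/
def pB (K0 K1 E G D C A Q : Int) : Cu :=
  ⟨0, 4500 * l0 K0 K1 E G D C * 160000, 5500 * l0 K0 K1 E G D C * 160000,
    4500 * l1 E G D * 400, (4500 * l2 C + 5500 * l1 E G D - A * 1000000000) * 400,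
    (5500 * l2 C - Q * 1000000) * 400, 4500 * l3 E G,
    4500 * 44400000 + 5500 * l3 E G - A * 222 * 450000,
    5500 * 44400000 - A * 222 * 550000 - Q * 222 * 450, -Q * 222 * 550⟩

/-- `B / 10^4` divided by `0.613 G / 10^3`, times `10^6`, rounded up -/
def qq (G B : Nat) : Nat := 100000000 * B / (613 * G) + 1

/-- the pairs `A / 10^3`, `B / 10^4` -/
def prs : List (Nat × Nat) :=
  [(220, 4560), (250, 2663), (280, 1610), (310, 939), (350, 341), (370, 117)]

/-- the bounds `a / 10^5 + b u / 10^5` for the entropy of a class -/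
def cps : List (Int × Int) :=
  [(69315, 0), (16252, 107372), (35668, 52448), (160944, -84979), (283322, -169959)]

/-- alternatives -/
def alts (K0 K1 E D C : Int) (G0 G1 : Nat) : List (Cu × Cu) :=
  (pL K0 K1 E G0 D C, pL K0 K1 E G1 D C) :: (pA K0 K1 E G0 D C, pA K0 K1 E G1 D C) ::
    prs.map (fun p => (pB K0 K1 E G0 D C p.1 (qq G0 p.2), pB K0 K1 E G1 D C p.1 (qq G1 p.2)))

/-- exclusions -/
def outs (G1 : Nat) : List Hp := cps.map (fun p => ⟨400 * (G1 * p.1), G1 * p.2⟩)

/-- the check for one range -/
def ck (K0 K1 E D C : Int) (G0 G1 : Nat) (top : Nat) : Bool :=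
  chk (alts K0 K1 E D C G0 G1) (outs G1) 653 top 0 0

/-- the check for one range, elements of `J` -/
def ckJ (D C : Int) (G0 G1 : Nat) : Bool := ck 450514 1165 646 D C G0 G1 10

/-- the check for one range, elements outside `J` -/
def ckR (D C : Int) (G0 G1 : Nat) : Bool := ck 450104 0 0 D C G0 G1 12

theorem ckJ1 : ckJ 28959 26232 1498 1560 = true := by decide +kernel

theorem ckJ2 : ckJ 28301 26595 1560 1700 = true := by decide +kernel

theorem ckJ3 : ckJ 28495 29182 1700 1950 = true := by decide +kernel

theorem ckJ4 : ckJ 27098 29438 1950 2300 = true := by decide +kernel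

theorem ckJ5 : ckJ 24788 28059 2300 2550 = true := by decide +kernel

theorem ckJ6 : ckJ 23206 27048 2550 2660 = true := by decide +kernel

theorem ckJ7 : ckJ 22552 26588 2660 2700 = true := by decide +kernel

theorem ckJ8 : ckJ 22142 26308 2700 2737 = true := by decide +kernel

theorem ckR1 : ckR 21894 30642 2724 2800 = true := by decide +kernel

theorem ckR2 : ckR 21998 30548 2800 3100 = true := by decide +kernel

theorem ckR3 : ckR 21413 29621 3100 4000 = true := by decide +kernel

theorem ckR4 : ckR 26338 32026 4000 6000 = true := by decide +kernel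

theorem ckR5 : ckR 32992 36644 6000 9000 = true := by decide +kernel

theorem ckR6 : ckR 36459 39374 9000 12800 = true := by decide +kernel

end Pool.Agent.H775.UC387
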