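import Mathlib
import Pool.Agent.H775.UC387.Dat
import Pool.Graph.R_seed8.TH688.UC.Loc

set_option autoImplicit false

/-!
# The local inequalities of the union-closed constant `0.387`
-/

namespace Pool.Agent.H775.UC387

open Pool.Agent.TH688.UC (inv_chord)

/-- the linear factor -/
noncomputable def Lr (K0 K1 E g d c u v : ℝ) : ℝ :=
  K0 + K1 * g + 444 / 1000 * ((u - 1) * (v - 1)) - E * g * (u - 1) ^ 2 + d * (u - 1) + c * (v - 1)

/-- the weight -/
noncomputable def wr (u v : ℝ) : ℝ := 9 / 20 * u + 11 / 20 * v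

/-- near the origin -/
noncomputable def RL (K0 K1 E g d c u v : ℝ) : ℝ :=
  Lr K0 K1 E g d c u v - 38586 / 100000 * wr u v - 38586 / 100000 * (222 / 1000) * wr u v ^ 2

/-- golden kernel bound -/
noncomputable def RA (K0 K1 E g d c u v : ℝ) : ℝ :=
  wr u v * Lr K0 K1 E g d c u v - 382 / 1000 * (u * v) * (1 + 222 / 1000 * wr u v)

/-- kernel bound with the pair `A, Q` -/
noncomputable def RB (K0 K1 E g d c A Q u v : ℝ) : ℝ :=
  wr u v * Lr K0 K1 E g d c u v - v * (A * u + Q * v) * (1 + 222 / 1000 * wr u v)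

theorem ev_L (K0 K1 E G D C : Int) (u v : ℝ) : (pL K0 K1 E G D C).ev (400 * u) (400 * v) =
    64000000000000000000 * RL ((K0 : ℝ) / 1000000) ((K1 : ℝ) / 100000) ((E : ℝ) / 10000)
      ((G : ℝ) / 1000) ((D : ℝ) / 100000) ((C : ℝ) / 100000) u v := by
  simp only [Cu.ev, pL, l0, l1, l2, l3, RL, Lr, wr]
  push_cast
  ring

theorem ev_A (K0 K1 E G D C : Int) (u v : ℝ) : (pA K0 K1 E G D C).ev (400 * u) (400 * v) =
    64000000000000000000 * RA ((K0 : ℝ) / 1000000) ((K1 : ℝ) / 100000) ((E : ℝ) / 10000)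
      ((G : ℝ) / 1000) ((D : ℝ) / 100000) ((C : ℝ) / 100000) u v := by
  simp only [Cu.ev, pA, l0, l1, l2, l3, RA, Lr, wr]
  push_cast
  ring

theorem ev_B (K0 K1 E G D C A Q : Int) (u v : ℝ) :
    (pB K0 K1 E G D C A Q).ev (400 * u) (400 * v) =
    64000000000000000000 * RB ((K0 : ℝ) / 1000000) ((K1 : ℝ) / 100000) ((E : ℝ) / 10000)
      ((G : ℝ) / 1000) ((D : ℝ) / 100000) ((C : ℝ) / 100000) ((A : ℝ) / 1000)
      ((Q : ℝ) / 1000000) u v := by
  simp only [Cu.ev, pB, l0, l1, l2, l3, RB, Lr, wr]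
  push_cast
  ring

theorem qq_ge {G B : Nat} (hG : 0 < G) :
    (B : ℝ) / 10000 / (613 / 1000) * (1 / ((G : ℝ) / 1000)) ≤ ((qq G B : Nat) : ℝ) / 1000000 := by
  have h1 : 100000000 * B < 613 * G * (100000000 * B / (613 * G) + 1) :=
    Nat.lt_mul_div_succ _ (by positivity)
  have h2 : ((100000000 * B : Nat) : ℝ) < ((613 * G * (100000000 * B / (613 * G) + 1) : Nat) : ℝ) := by
    exact_mod_cast h1
  have hG' : (0 : ℝ) < G := by exact_mod_cast hG
  obtain ⟨q, hq⟩ : ∃ q, q = qq G B := ⟨_, rfl⟩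
  have h3 : ((100000000 * B : Nat) : ℝ) < ((613 * G * q : Nat) : ℝ) := by
    rw [hq]; exact h2
  rw [← hq]
  have e : (B : ℝ) / 10000 / (613 / 1000) * (1 / ((G : ℝ) / 1000)) = 100 * B / (613 * G) := by
    field_simp
    ring
  rw [e, div_le_div_iff₀ (by positivity) (by norm_num)]
  push_cast at h3
  linarith

/-- one range of the parameter -/
theorem range {K0 K1 E D C : Int} {G0 G1 top : Nat} (hck : ck K0 K1 E D C G0 G1 top = true)
    {k0 k1 ee g0 g1 d c : ℝ} (ek0 : k0 = (K0 : ℝ) / 1000000) (ek1 : k1 = (K1 : ℝ) / 100000)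
    (eee : ee = (E : ℝ) / 10000)
    (eg0 : g0 = (G0 : ℝ) / 1000) (eg1 : g1 = (G1 : ℝ) / 1000) (ed : d = (D : ℝ) / 100000)
    (ec : c = (C : ℝ) / 100000) (hG0 : 0 < G0) (hG01 : G0 < G1)
    (htop : 400 * (g1 * (69315 / 100000)) ≤ 2 ^ top) (htop2 : 653 ≤ (2 : ℝ) ^ top)
    {g : ℝ} (h0 : g0 ≤ g) (h1 : g ≤ g1) {u v k : ℝ} (hu : 0 ≤ u) (hv : 0 ≤ v)
    (hu1 : u ≤ 1632 / 1000)
    (hc : ∀ p ∈ cps, v ≤ g * ((p.1 : ℝ) / 100000 + (p.2 : ℝ) / 100000 * u))
    (k1' : k ≤ 382 / 1000 * (u * v))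
    (k2 : ∀ p ∈ prs, k ≤ v * ((p.1 : ℝ) / 1000 * u +
      (p.2 : ℝ) / 10000 / (613 / 1000) * (1 / g) * v)) :
    0 ≤ wr u v * Lr k0 k1 ee g d c u v - k * (1 + 222 / 1000 * wr u v) := by
  have hg0 : 0 < g0 := by
    rw [eg0]
    have : (0 : ℝ) < G0 := by exact_mod_cast hG0
    positivity
  have hg : 0 < g := hg0.trans_le h0
  have hg1 : 0 < g1 := hg.trans_le h1
  have hg01 : g0 < g1 := by
    rw [eg0, eg1]
    have : (G0 : ℝ) < G1 := by exact_mod_cast hG01
    linarith
  have hw : 0 ≤ wr u v := by unfold wr; positivity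
  have hcap : v ≤ g1 * (69315 / 100000) := by
    have h := hc (69315, 0) (by simp [cps])
    norm_num at h
    have : g * (13863 / 20000) ≤ g1 * (13863 / 20000) :=
      mul_le_mul_of_nonneg_right h1 (by norm_num)
    linarith
  have hs := chk_spec _ _ _ _ _ _ hck (400 * u) (400 * v)
    (by push_cast; linarith) (by push_cast; linarith) (by push_cast; linarith)
    (by push_cast; linarith) (by push_cast; linarith)
    (by
      intro cc hcc
      rw [outs, List.mem_map] at hcc
      obtain ⟨p, hp, rfl⟩ := hcc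
      have h := hc p hp
      obtain ⟨t, ht⟩ : ∃ t : ℝ, t = (p.1 : ℝ) / 100000 + (p.2 : ℝ) / 100000 * u := ⟨_, rfl⟩
      rw [← ht] at h
      have ht0 : 0 ≤ t := by
        by_contra hneg
        push Not at hneg
        have := mul_neg_of_pos_of_neg hg hneg
        linarith
      have h2 : v ≤ g1 * t := h.trans (mul_le_mul_of_nonneg_right h1 ht0)
      rw [ht, eg1] at h2
      push_cast
      linarith)
  obtain ⟨p, hp, hp1, hp2⟩ := hs
  have hd : 0 < g1 - g0 := by linarith
  have ha : 0 ≤ g1 - g := by linarith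
  have hb : 0 ≤ g - g0 := by linarith
  rw [alts, List.mem_cons, List.mem_cons, List.mem_map] at hp
  have h400 : (0 : ℝ) < 64000000000000000000 := by norm_num
  rcases hp with hp | hp | ⟨q, hq, hp⟩
  · rw [hp] at hp1 hp2
    simp only at hp1 hp2
    rw [ev_L] at hp1 hp2
    have a1 := nonneg_of_mul_nonneg_right hp1 h400
    have a2 := nonneg_of_mul_nonneg_right hp2 h400
    push_cast at a1 a2
    rw [← ek0, ← ek1, ← eee, ← ed, ← ec] at a1 a2
    rw [← eg0] at a1
    rw [← eg1] at a2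
    have e : (g1 - g0) * RL k0 k1 ee g d c u v =
        (g1 - g) * RL k0 k1 ee g0 d c u v + (g - g0) * RL k0 k1 ee g1 d c u v := by
      unfold RL Lr; ring
    have a3 : 0 ≤ (g1 - g0) * RL k0 k1 ee g d c u v := by rw [e]; positivity
    have a4 := nonneg_of_mul_nonneg_right a3 hd
    have a5 : 0 ≤ wr u v * RL k0 k1 ee g d c u v := mul_nonneg hw a4
    have a6 : 382 / 1000 * (u * v) ≤ 38586 / 100000 * wr u v ^ 2 := by
      unfold wr; nlinarith [sq_nonneg (9 / 20 * u - 11 / 20 * v), mul_nonneg hu hv]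
    have a7 : k * (1 + 222 / 1000 * wr u v) ≤
        38586 / 100000 * wr u v ^ 2 * (1 + 222 / 1000 * wr u v) :=
      mul_le_mul_of_nonneg_right (k1'.trans a6) (by positivity)
    have a8 : wr u v * RL k0 k1 ee g d c u v = wr u v * Lr k0 k1 ee g d c u v -
        38586 / 100000 * wr u v ^ 2 * (1 + 222 / 1000 * wr u v) := by
      unfold RL; ring
    linarith
  · rw [hp] at hp1 hp2
    simp only at hp1 hp2
    rw [ev_A] at hp1 hp2
    have a1 := nonneg_of_mul_nonneg_right hp1 h400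
    have a2 := nonneg_of_mul_nonneg_right hp2 h400
    push_cast at a1 a2
    rw [← ek0, ← ek1, ← eee, ← ed, ← ec] at a1 a2
    rw [← eg0] at a1
    rw [← eg1] at a2
    have e : (g1 - g0) * RA k0 k1 ee g d c u v =
        (g1 - g) * RA k0 k1 ee g0 d c u v + (g - g0) * RA k0 k1 ee g1 d c u v := by
      unfold RA Lr; ring
    have a3 : 0 ≤ (g1 - g0) * RA k0 k1 ee g d c u v := by rw [e]; positivity
    have a4 := nonneg_of_mul_nonneg_right a3 hd
    have a7 : k * (1 + 222 / 1000 * wr u v) ≤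
        382 / 1000 * (u * v) * (1 + 222 / 1000 * wr u v) :=
      mul_le_mul_of_nonneg_right k1' (by positivity)
    unfold RA at a4
    linarith
  · rw [← hp] at hp1 hp2
    simp only at hp1 hp2
    rw [ev_B] at hp1 hp2
    have a1 := nonneg_of_mul_nonneg_right hp1 h400
    have a2 := nonneg_of_mul_nonneg_right hp2 h400
    push_cast at a1 a2
    rw [← ek0, ← ek1, ← eee, ← ed, ← ec] at a1 a2
    rw [← eg0] at a1
    rw [← eg1] at a2
    have hq0 := qq_ge (G := G0) (B := q.2) hG0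
    have hq1 := qq_ge (G := G1) (B := q.2) (hG0.trans hG01)
    rw [← eg0] at hq0
    rw [← eg1] at hq1
    obtain ⟨q0, eq0⟩ : ∃ q0 : ℝ, q0 = ((qq G0 q.2 : Nat) : ℝ) / 1000000 := ⟨_, rfl⟩
    obtain ⟨q1, eq1⟩ : ∃ q1 : ℝ, q1 = ((qq G1 q.2 : Nat) : ℝ) / 1000000 := ⟨_, rfl⟩
    obtain ⟨A, eA⟩ : ∃ A : ℝ, A = (q.1 : ℝ) / 1000 := ⟨_, rfl⟩
    obtain ⟨B, eB⟩ : ∃ B : ℝ, B = (q.2 : ℝ) / 10000 / (613 / 1000) := ⟨_, rfl⟩
    have hB0 : 0 ≤ B := by rw [eB]; positivity
    rw [← eq0, ← eB] at hq0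
    rw [← eq1, ← eB] at hq1
    rw [← eq0, ← eA] at a1
    rw [← eq1, ← eA] at a2
    have k3 := k2 q hq
    rw [← eA, ← eB] at k3
    have hi := inv_chord hg0 h0 h1
    have hQ : (g1 - g0) * (B * (1 / g)) ≤ (g1 - g) * q0 + (g - g0) * q1 := by
      have b1 := mul_le_mul_of_nonneg_left hq0 ha
      have b2 := mul_le_mul_of_nonneg_left hq1 hb
      have b3 := mul_le_mul_of_nonneg_left hi hB0
      have b4 : (g1 - g0) * (B * (1 / g)) = B * ((g1 - g0) * (1 / g)) := by ring
      have b5 : B * ((g1 - g) * (1 / g0) + (g - g0) * (1 / g1)) =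
          (g1 - g) * (B * (1 / g0)) + (g - g0) * (B * (1 / g1)) := by
        ring
      rw [b4]
      linarith
    have e : (g1 - g) * RB k0 k1 ee g0 d c A q0 u v + (g - g0) * RB k0 k1 ee g1 d c A q1 u v =
        (g1 - g0) * (wr u v * Lr k0 k1 ee g d c u v - v * (A * u) * (1 + 222 / 1000 * wr u v)) -
          ((g1 - g) * q0 + (g - g0) * q1) * (v ^ 2 * (1 + 222 / 1000 * wr u v)) := by
      unfold RB Lr; ring
    have a3 : 0 ≤ (g1 - g) * RB k0 k1 ee g0 d c A q0 u v +
        (g - g0) * RB k0 k1 ee g1 d c A q1 u v :=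
      add_nonneg (mul_nonneg ha a1) (mul_nonneg hb a2)
    rw [e] at a3
    have hvw : 0 ≤ v ^ 2 * (1 + 222 / 1000 * wr u v) := by positivity
    have b6 := mul_le_mul_of_nonneg_right hQ hvw
    have a4 : 0 ≤ (g1 - g0) * (wr u v * Lr k0 k1 ee g d c u v -
        v * (A * u + B * (1 / g) * v) * (1 + 222 / 1000 * wr u v)) := by
      have b7 : (g1 - g0) * (wr u v * Lr k0 k1 ee g d c u v -
          v * (A * u + B * (1 / g) * v) * (1 + 222 / 1000 * wr u v)) =
          (g1 - g0) * (wr u v * Lr k0 k1 ee g d c u v -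
            v * (A * u) * (1 + 222 / 1000 * wr u v)) -
          (g1 - g0) * (B * (1 / g)) * (v ^ 2 * (1 + 222 / 1000 * wr u v)) := by ring
      rw [b7]; linarith
    have a5 := nonneg_of_mul_nonneg_right a4 hd
    have a7 : k * (1 + 222 / 1000 * wr u v) ≤
        v * (A * u + B * (1 / g) * v) * (1 + 222 / 1000 * wr u v) :=
      mul_le_mul_of_nonneg_right k3 (by positivity)
    linarith

/-- all ranges -/
theorem rangesJ {g : ℝ} (h0 : 1498 / 1000 ≤ g) (h1 : g ≤ 2737 / 1000) : ∃ d c : ℝ,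
    0 ≤ Lr (450514 / 1000000) (1165 / 100000) (646 / 10000) g d c 0 0 ∧ ∀ u v k : ℝ, 0 ≤ u → 0 ≤ v → u ≤ 1632 / 1000 →
    (∀ p ∈ cps, v ≤ g * ((p.1 : ℝ) / 100000 + (p.2 : ℝ) / 100000 * u)) →
    k ≤ 382 / 1000 * (u * v) →
    (∀ p ∈ prs, k ≤ v * ((p.1 : ℝ) / 1000 * u +
      (p.2 : ℝ) / 10000 / (613 / 1000) * (1 / g) * v)) →
    0 ≤ wr u v * Lr (450514 / 1000000) (1165 / 100000) (646 / 10000) g d c u v - k * (1 + 222 / 1000 * wr u v) := by
  rcases le_total g (1560 / 1000) with h2 | h2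
  · refine ⟨28959 / 100000, 26232 / 100000, by unfold Lr; linarith, fun u v k a b a1 b1 b2 b3 =>
      range ckJ1 (k0 := 450514 / 1000000) (k1 := 1165 / 100000) (ee := 646 / 10000) (g0 := 1498 / 1000) (g1 := 1560 / 1000)
        (by norm_num) (by norm_num) (by norm_num) (by norm_num) (by norm_num) (by norm_num)
        (by norm_num) (by norm_num) (by norm_num) (by norm_num) (by norm_num)
        h0 h2 a b a1 b1 b2 b3⟩
  rcases le_total g (1700 / 1000) with h3 | h3
  · refine ⟨28301 / 100000, 26595 / 100000, by unfold Lr; linarith, fun u v k a b a1 b1 b2 b3 =>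
      range ckJ2 (k0 := 450514 / 1000000) (k1 := 1165 / 100000) (ee := 646 / 10000) (g0 := 1560 / 1000) (g1 := 1700 / 1000)
        (by norm_num) (by norm_num) (by norm_num) (by norm_num) (by norm_num) (by norm_num)
        (by norm_num) (by norm_num) (by norm_num) (by norm_num) (by norm_num)
        h2 h3 a b a1 b1 b2 b3⟩
  rcases le_total g (1950 / 1000) with h4 | h4
  · refine ⟨28495 / 100000, 29182 / 100000, by unfold Lr; linarith, fun u v k a b a1 b1 b2 b3 =>
      range ckJ3 (k0 := 450514 / 1000000) (k1 := 1165 / 100000) (ee := 646 / 10000) (g0 := 1700 / 1000) (g1 := 1950 / 1000)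
        (by norm_num) (by norm_num) (by norm_num) (by norm_num) (by norm_num) (by norm_num)
        (by norm_num) (by norm_num) (by norm_num) (by norm_num) (by norm_num)
        h3 h4 a b a1 b1 b2 b3⟩
  rcases le_total g (2300 / 1000) with h5 | h5
  · refine ⟨27098 / 100000, 29438 / 100000, by unfold Lr; linarith, fun u v k a b a1 b1 b2 b3 =>
      range ckJ4 (k0 := 450514 / 1000000) (k1 := 1165 / 100000) (ee := 646 / 10000) (g0 := 1950 / 1000) (g1 := 2300 / 1000)
        (by norm_num) (by norm_num) (by norm_num) (by norm_num) (by norm_num) (by norm_num)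
        (by norm_num) (by norm_num) (by norm_num) (by norm_num) (by norm_num)
        h4 h5 a b a1 b1 b2 b3⟩
  rcases le_total g (2550 / 1000) with h6 | h6
  · refine ⟨24788 / 100000, 28059 / 100000, by unfold Lr; linarith, fun u v k a b a1 b1 b2 b3 =>
      range ckJ5 (k0 := 450514 / 1000000) (k1 := 1165 / 100000) (ee := 646 / 10000) (g0 := 2300 / 1000) (g1 := 2550 / 1000)
        (by norm_num) (by norm_num) (by norm_num) (by norm_num) (by norm_num) (by norm_num)
        (by norm_num) (by norm_num) (by norm_num) (by norm_num) (by norm_num)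
        h5 h6 a b a1 b1 b2 b3⟩
  rcases le_total g (2660 / 1000) with h7 | h7
  · refine ⟨23206 / 100000, 27048 / 100000, by unfold Lr; linarith, fun u v k a b a1 b1 b2 b3 =>
      range ckJ6 (k0 := 450514 / 1000000) (k1 := 1165 / 100000) (ee := 646 / 10000) (g0 := 2550 / 1000) (g1 := 2660 / 1000)
        (by norm_num) (by norm_num) (by norm_num) (by norm_num) (by norm_num) (by norm_num)
        (by norm_num) (by norm_num) (by norm_num) (by norm_num) (by norm_num)
        h6 h7 a b a1 b1 b2 b3⟩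
  rcases le_total g (2700 / 1000) with h8 | h8
  · refine ⟨22552 / 100000, 26588 / 100000, by unfold Lr; linarith, fun u v k a b a1 b1 b2 b3 =>
      range ckJ7 (k0 := 450514 / 1000000) (k1 := 1165 / 100000) (ee := 646 / 10000) (g0 := 2660 / 1000) (g1 := 2700 / 1000)
        (by norm_num) (by norm_num) (by norm_num) (by norm_num) (by norm_num) (by norm_num)
        (by norm_num) (by norm_num) (by norm_num) (by norm_num) (by norm_num)
        h7 h8 a b a1 b1 b2 b3⟩
  · refine ⟨22142 / 100000, 26308 / 100000, by unfold Lr; linarith, fun u v k a b a1 b1 b2 b3 =>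
      range ckJ8 (k0 := 450514 / 1000000) (k1 := 1165 / 100000) (ee := 646 / 10000) (g0 := 2700 / 1000) (g1 := 2737 / 1000)
        (by norm_num) (by norm_num) (by norm_num) (by norm_num) (by norm_num) (by norm_num)
        (by norm_num) (by norm_num) (by norm_num) (by norm_num) (by norm_num)
        h8 h1 a b a1 b1 b2 b3⟩

/-- all ranges -/
theorem rangesR {g : ℝ} (h0 : 2724 / 1000 ≤ g) (h1 : g ≤ 12800 / 1000) : ∃ d c : ℝ,
    0 ≤ Lr (450104 / 1000000) (0) (0) g d c 0 0 ∧ ∀ u v k : ℝ, 0 ≤ u → 0 ≤ v → u ≤ 1632 / 1000 →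
    (∀ p ∈ cps, v ≤ g * ((p.1 : ℝ) / 100000 + (p.2 : ℝ) / 100000 * u)) →
    k ≤ 382 / 1000 * (u * v) →
    (∀ p ∈ prs, k ≤ v * ((p.1 : ℝ) / 1000 * u +
      (p.2 : ℝ) / 10000 / (613 / 1000) * (1 / g) * v)) →
    0 ≤ wr u v * Lr (450104 / 1000000) (0) (0) g d c u v - k * (1 + 222 / 1000 * wr u v) := by
  rcases le_total g (2800 / 1000) with h2 | h2
  · refine ⟨21894 / 100000, 30642 / 100000, by unfold Lr; linarith, fun u v k a b a1 b1 b2 b3 =>
      range ckR1 (k0 := 450104 / 1000000) (k1 := 0) (ee := 0) (g0 := 2724 / 1000) (g1 := 2800 / 1000)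
        (by norm_num) (by norm_num) (by norm_num) (by norm_num) (by norm_num) (by norm_num)
        (by norm_num) (by norm_num) (by norm_num) (by norm_num) (by norm_num)
        h0 h2 a b a1 b1 b2 b3⟩
  rcases le_total g (3100 / 1000) with h3 | h3
  · refine ⟨21998 / 100000, 30548 / 100000, by unfold Lr; linarith, fun u v k a b a1 b1 b2 b3 =>
      range ckR2 (k0 := 450104 / 1000000) (k1 := 0) (ee := 0) (g0 := 2800 / 1000) (g1 := 3100 / 1000)
        (by norm_num) (by norm_num) (by norm_num) (by norm_num) (by norm_num) (by norm_num)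
        (by norm_num) (by norm_num) (by norm_num) (by norm_num) (by norm_num)
        h2 h3 a b a1 b1 b2 b3⟩
  rcases le_total g (4000 / 1000) with h4 | h4
  · refine ⟨21413 / 100000, 29621 / 100000, by unfold Lr; linarith, fun u v k a b a1 b1 b2 b3 =>
      range ckR3 (k0 := 450104 / 1000000) (k1 := 0) (ee := 0) (g0 := 3100 / 1000) (g1 := 4000 / 1000)
        (by norm_num) (by norm_num) (by norm_num) (by norm_num) (by norm_num) (by norm_num)
        (by norm_num) (by norm_num) (by norm_num) (by norm_num) (by norm_num)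
        h3 h4 a b a1 b1 b2 b3⟩
  rcases le_total g (6000 / 1000) with h5 | h5
  · refine ⟨26338 / 100000, 32026 / 100000, by unfold Lr; linarith, fun u v k a b a1 b1 b2 b3 =>
      range ckR4 (k0 := 450104 / 1000000) (k1 := 0) (ee := 0) (g0 := 4000 / 1000) (g1 := 6000 / 1000)
        (by norm_num) (by norm_num) (by norm_num) (by norm_num) (by norm_num) (by norm_num)
        (by norm_num) (by norm_num) (by norm_num) (by norm_num) (by norm_num)
        h4 h5 a b a1 b1 b2 b3⟩
  rcases le_total g (9000 / 1000) with h6 | h6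
  · refine ⟨32992 / 100000, 36644 / 100000, by unfold Lr; linarith, fun u v k a b a1 b1 b2 b3 =>
      range ckR5 (k0 := 450104 / 1000000) (k1 := 0) (ee := 0) (g0 := 6000 / 1000) (g1 := 9000 / 1000)
        (by norm_num) (by norm_num) (by norm_num) (by norm_num) (by norm_num) (by norm_num)
        (by norm_num) (by norm_num) (by norm_num) (by norm_num) (by norm_num)
        h5 h6 a b a1 b1 b2 b3⟩
  · refine ⟨36459 / 100000, 39374 / 100000, by unfold Lr; linarith, fun u v k a b a1 b1 b2 b3 =>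
      range ckR6 (k0 := 450104 / 1000000) (k1 := 0) (ee := 0) (g0 := 9000 / 1000) (g1 := 12800 / 1000)
        (by norm_num) (by norm_num) (by norm_num) (by norm_num) (by norm_num) (by norm_num)
        (by norm_num) (by norm_num) (by norm_num) (by norm_num) (by norm_num)
        h6 h1 a b a1 b1 b2 b3⟩

end Pool.Agent.H775.UC387
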