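import Mathlib
import Pool.Agent.H775.UC387.Loc
import Pool.Graph.R_seed8.H286R2.UC.U9

set_option autoImplicit false

/-!
# The law inequalities of the union-closed constant `0.387`
-/

namespace Pool.Agent.H775.UC387

open Real Finset Pool.Agent.H286R2.UC

/-- the pointwise inequality, general form -/
theorem point_gen {m e k0 k1 E d c' s X κ : ℝ} (hm1 : 613 / 1000 ≤ m) (hm2 : m ≤ 619 / 1000)
    (he0 : 0 < e) (hL0 : 0 ≤ Lr k0 k1 E (1 / e) d c' 0 0)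
    (hP : ∀ u v k : ℝ, 0 ≤ u → 0 ≤ v → u ≤ 1632 / 1000 →
      (∀ p ∈ cps, v ≤ 1 / e * ((p.1 : ℝ) / 100000 + (p.2 : ℝ) / 100000 * u)) →
      k ≤ 382 / 1000 * (u * v) →
      (∀ p ∈ prs, k ≤ v * ((p.1 : ℝ) / 1000 * u +
        (p.2 : ℝ) / 10000 / (613 / 1000) * (1 / (1 / e)) * v)) →
      0 ≤ wr u v * Lr k0 k1 E (1 / e) d c' u v - k * (1 + 222 / 1000 * wr u v))
    (hE : κ * m ≤ E)
    (hconst : s + k0 * (m * e) + k1 * m ≤ X + 444 / 1000 * (m * e) - κ * m ^ 2) :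
    ∀ z η k : ℝ, 0 ≤ z → z ≤ 1 → 0 ≤ η →
    η ≤ 69315 / 100000 → η ≤ 16252 / 100000 + 173460 / 100000 * z →
    η ≤ 35668 / 100000 + 84730 / 100000 * z → η ≤ 160944 / 100000 - 138629 / 100000 * z →
    η ≤ 283322 / 100000 - 277259 / 100000 * z → k ^ 2 ≤ 382 / 1000 * (z * η) →
    (∀ p ∈ prs, k ^ 2 ≤ η * ((p.1 : ℝ) / 1000 * z + (p.2 : ℝ) / 10000 * η)) →
    s ≤ X - k ^ 2 / (9 / 20 * (z / m) + 11 / 20 * (η / e)) + 111 / 500 * (2 * z * η - k ^ 2) -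
      κ * z ^ 2 + (e * (d - 444 / 1000) + 2 * κ * m) * (z - m) +
      m * (c' - 444 / 1000) * (η - e) := by
  intro z η k hz0 hz1 hη0 t1 t2 t3 t4 t5 hk1 hk2
  have hm0 : 0 < m := by linarith
  have hme : 0 < m * e := by positivity
  obtain ⟨u, hu⟩ : ∃ u, u = z / m := ⟨_, rfl⟩
  obtain ⟨v, hv⟩ : ∃ v, v = η / e := ⟨_, rfl⟩
  have ez : z = m * u := by rw [hu]; field_simp
  have eη : η = e * v := by rw [hv]; field_simp
  have hu0 : 0 ≤ u := by rw [hu]; positivity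
  have hv0 : 0 ≤ v := by rw [hv]; positivity
  have hu1 : u ≤ 1632 / 1000 := by
    rw [hu, div_le_iff₀ hm0]; nlinarith
  have hev : ∀ x : ℝ, e * v ≤ x → v ≤ 1 / e * x := by
    intro x hx
    rw [one_div, ← div_eq_inv_mul, le_div_iff₀ he0]
    linarith
  have hmu1 : m * u ≤ 619 / 1000 * u := mul_le_mul_of_nonneg_right hm2 hu0
  have hmu2 : 613 / 1000 * u ≤ m * u := mul_le_mul_of_nonneg_right hm1 hu0
  have hcaps : ∀ p ∈ cps, v ≤ 1 / e * ((p.1 : ℝ) / 100000 + (p.2 : ℝ) / 100000 * u) := by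
    intro p hp
    apply hev
    rw [← eη]
    rw [ez] at t2 t3 t4 t5
    simp only [cps, List.mem_cons, List.not_mem_nil, or_false] at hp
    rcases hp with rfl | rfl | rfl | rfl | rfl
    · norm_num at t1 ⊢; linarith
    · push_cast; linarith
    · push_cast; linarith
    · push_cast; linarith
    · push_cast; linarith
  have hk2' : k ^ 2 / (m * e) ≤ 382 / 1000 * (u * v) := by
    rw [div_le_iff₀ hme]
    rw [ez, eη] at hk1
    linarith
  have hk3 : ∀ p ∈ prs, k ^ 2 / (m * e) ≤ v * ((p.1 : ℝ) / 1000 * u +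
        (p.2 : ℝ) / 10000 / (613 / 1000) * (1 / (1 / e)) * v) := by
    intro p hp
    have h := hk2 p hp
    rw [div_le_iff₀ hme, one_div_one_div]
    rw [ez, eη] at h
    obtain ⟨B, hB⟩ : ∃ B : ℝ, B = (p.2 : ℝ) / 10000 := ⟨_, rfl⟩
    rw [← hB] at h ⊢
    have hB0 : 0 ≤ B := by rw [hB]; positivity
    have h2 : B * (e * v * (e * v)) ≤ B * (e * v * (e * v)) / (613 / 1000) * m := by
      have h3 : 0 ≤ B * (e * v * (e * v)) := by positivity
      rw [div_mul_eq_mul_div, le_div_iff₀ (by norm_num)]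
      nlinarith
    have e1 : e * v * ((p.1 : ℝ) / 1000 * (m * u) + B * (e * v)) =
        e * v * ((p.1 : ℝ) / 1000 * (m * u)) + B * (e * v * (e * v)) := by ring
    have e2 : v * ((p.1 : ℝ) / 1000 * u + B / (613 / 1000) * e * v) * (m * e) =
        e * v * ((p.1 : ℝ) / 1000 * (m * u)) + B * (e * v * (e * v)) / (613 / 1000) * m := by
      ring
    rw [e1] at h
    rw [e2]
    linarith
  have hp := hP u v (k ^ 2 / (m * e)) hu0 hv0 hu1 hcaps hk2' hk3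
  obtain ⟨L, hL⟩ : ∃ L, L = Lr k0 k1 E (1 / e) d c' u v := ⟨_, rfl⟩
  obtain ⟨w, hw⟩ : ∃ w, w = 9 / 20 * u + 11 / 20 * v := ⟨_, rfl⟩
  have hw0 : 0 ≤ w := by rw [hw]; positivity
  have hwr : wr u v = w := by rw [hw]; rfl
  rw [← hL, hwr] at hp
  have hY : 0 ≤ m * e * L - k ^ 2 / w - 222 / 1000 * k ^ 2 := by
    rcases hw0.eq_or_lt with h | h
    · have h1 : u = 0 := by linarith
      have h2 : v = 0 := by linarith
      have h3 : k ^ 2 ≤ 0 := by rw [ez, h1] at hk1; linarith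
      have h4 : k ^ 2 = 0 := le_antisymm h3 (sq_nonneg k)
      have h5 : 0 ≤ L := by rw [hL, h1, h2]; exact hL0
      rw [h4]
      have := mul_nonneg hme.le h5
      simpa using this
    · have e1 : m * e * L - k ^ 2 / w - 222 / 1000 * k ^ 2 =
          m * e * (w * L - k ^ 2 / (m * e) * (1 + 222 / 1000 * w)) / w := by
        field_simp
        ring
      rw [e1]
      positivity
  have key : X - k ^ 2 / w + 111 / 500 * (2 * z * η - k ^ 2) -
      κ * z ^ 2 + (e * (d - 444 / 1000) + 2 * κ * m) * (z - m) +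
      m * (c' - 444 / 1000) * (η - e) =
      (m * e * L - k ^ 2 / w - 222 / 1000 * k ^ 2) +
      (X + 444 / 1000 * (m * e) - κ * m ^ 2 - (k0 * (m * e) + k1 * m)) +
      (E - κ * m) * (m * (u - 1) ^ 2) := by
    obtain ⟨q, hq⟩ : ∃ q, q = k ^ 2 / w := ⟨_, rfl⟩
    rw [← hq, hL, ez, eη]
    unfold Lr
    field_simp
    ring
  rw [← hu, ← hv, ← hw, key]
  have hslack : 0 ≤ (E - κ * m) * (m * (u - 1) ^ 2) :=
    mul_nonneg (by linarith) (by positivity)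
  linarith

/-- averaging -/
theorem law_avg {ι : Type*} (N : Finset ι) (hN : N.Nonempty) (z η k : ι → ℝ)
    (hz0 : ∀ i ∈ N, 0 ≤ z i) (hη0 : ∀ i ∈ N, 0 ≤ η i)
    (hk1 : ∀ i ∈ N, k i ^ 2 ≤ 382 / 1000 * (z i * η i))
    {m e s X κ a b : ℝ} (hm : ∑ i ∈ N, z i = m * N.card)
    (he : ∑ i ∈ N, η i = e * N.card) (hm0 : 0 < m) (he0 : 0 < e)
    (hpt : ∀ i ∈ N, s ≤ X - k i ^ 2 / (9 / 20 * (z i / m) + 11 / 20 * (η i / e)) +
      111 / 500 * (2 * z i * η i - k i ^ 2) - κ * z i ^ 2 + a * (z i - m) + b * (η i - e)) :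
    s ≤ X - ((∑ i ∈ N, k i) / N.card) ^ 2 +
      111 / 500 * ((∑ i ∈ N, (2 * z i * η i - k i ^ 2)) / N.card) -
      κ * ((∑ i ∈ N, z i ^ 2) / N.card) := by
  have hn : (0 : ℝ) < N.card := by exact_mod_cast card_pos.2 hN
  set n : ℝ := (N.card : ℝ) with hndef
  obtain ⟨q, hq⟩ : ∃ q : ι → ℝ, q = fun i => k i ^ 2 / (9 / 20 * (z i / m) + 11 / 20 * (η i / e)) :=
    ⟨_, rfl⟩
  obtain ⟨y, hy⟩ : ∃ y : ι → ℝ, y = fun i => 2 * z i * η i - k i ^ 2 := ⟨_, rfl⟩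
  have hpt' : ∀ i ∈ N, s ≤ (X - a * m - b * e) - q i + 111 / 500 * y i - κ * z i ^ 2 +
      a * z i + b * η i := by
    intro i hi
    have h1 := hpt i hi
    rw [hq, hy]
    simp only
    linarith
  have hsum := sum_le_sum hpt'
  rw [sum_add_distrib, sum_add_distrib, sum_sub_distrib, sum_add_distrib, sum_sub_distrib,
      ← mul_sum, ← mul_sum, ← mul_sum, ← mul_sum, sum_const, sum_const, nsmul_eq_mul,
      nsmul_eq_mul, ← hndef, hm, he] at hsum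
  -- Cauchy-Schwarz
  have hCS : n * ((∑ i ∈ N, k i) / n) ^ 2 ≤ ∑ i ∈ N, q i := by
    have h1 : (∑ i ∈ N, k i) ^ 2 ≤
        (∑ i ∈ N, (9 / 20 * (z i / m) + 11 / 20 * (η i / e))) * ∑ i ∈ N, q i := by
      apply Finset.sum_sq_le_sum_mul_sum_of_sq_le_mul
      · intro i hi
        have := hz0 i hi
        have := hη0 i hi
        positivity
      · intro i hi
        have := hz0 i hi
        have := hη0 i hi
        rw [hq]
        positivity
      · intro i hi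
        have hz := hz0 i hi
        have hη := hη0 i hi
        rcases (by positivity : 0 ≤ 9 / 20 * (z i / m) + 11 / 20 * (η i / e)).eq_or_lt with h | h
        · have h2 : 0 ≤ z i / m := by positivity
          have h3 : 0 ≤ η i / e := by positivity
          have h4 : z i / m = 0 := by linarith
          have h5 : z i = 0 := by
            rcases div_eq_zero_iff.1 h4 with h | h
            · exact h
            · exact absurd h hm0.ne'
          have h6 := hk1 i hi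
          rw [h5] at h6
          rw [← h]
          linarith
        · rw [hq]
          simp only
          rw [mul_div_cancel₀ _ h.ne']
    have h2 : ∑ i ∈ N, (9 / 20 * (z i / m) + 11 / 20 * (η i / e)) = n := by
      rw [sum_add_distrib, ← mul_sum, ← mul_sum, ← sum_div, ← sum_div, hm, he]
      field_simp
      ring
    rw [h2] at h1
    have h3 : n * ((∑ i ∈ N, k i) / n) ^ 2 = (∑ i ∈ N, k i) ^ 2 / n := by
      field_simp
    rw [h3, div_le_iff₀ hn]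
    linarith
  -- conclusion
  have key : n * s ≤ n * (X - ((∑ i ∈ N, k i) / n) ^ 2 +
      111 / 500 * ((∑ i ∈ N, y i) / n) - κ * ((∑ i ∈ N, z i ^ 2) / n)) := by
    have h4 : n * (X - ((∑ i ∈ N, k i) / n) ^ 2 +
      111 / 500 * ((∑ i ∈ N, y i) / n) - κ * ((∑ i ∈ N, z i ^ 2) / n)) = n * X -
      n * ((∑ i ∈ N, k i) / n) ^ 2 + 111 / 500 * (∑ i ∈ N, y i) - κ * (∑ i ∈ N, z i ^ 2) := by
      field_simp
    rw [h4]
    linarith
  have := le_of_mul_le_mul_left key hn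
  rw [hy] at this
  exact this

/-- elements of `J \ T` -/
theorem law_on {ι : Type*} (N : Finset ι) (hN : N.Nonempty) (z η k : ι → ℝ)
    (hz0 : ∀ i ∈ N, 0 ≤ z i) (hz1 : ∀ i ∈ N, z i ≤ 1) (hη0 : ∀ i ∈ N, 0 ≤ η i)
    (hη1 : ∀ i ∈ N, η i ≤ 69315 / 100000)
    (hη2 : ∀ i ∈ N, η i ≤ 16252 / 100000 + 173460 / 100000 * z i)
    (hη3 : ∀ i ∈ N, η i ≤ 35668 / 100000 + 84730 / 100000 * z i)
    (hη4 : ∀ i ∈ N, η i ≤ 160944 / 100000 - 138629 / 100000 * z i)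
    (hη5 : ∀ i ∈ N, η i ≤ 283322 / 100000 - 277259 / 100000 * z i)
    (hk1 : ∀ i ∈ N, k i ^ 2 ≤ 382 / 1000 * (z i * η i))
    (hk2 : ∀ i ∈ N, ∀ p ∈ prs,
      k i ^ 2 ≤ η i * ((p.1 : ℝ) / 1000 * z i + (p.2 : ℝ) / 10000 * η i))
    {m e κ c : ℝ} (hm : ∑ i ∈ N, z i = m * N.card)
    (he : ∑ i ∈ N, η i = e * N.card) (hm1 : 613 / 1000 ≤ m) (hm2 : m ≤ 619 / 1000)
    (he1 : 3654 / 10000 ≤ e) (he2 : e ≤ 6674 / 10000)
    (hκ1 : 10434 / 100000 ≤ κ) (hκ2 : κ ≤ 104355 / 1000000) (hc : -(1215 / 100000) ≤ c) :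
    1 / 200000 ≤ (2 * m - 1222 / 1000) * e
      - ((∑ i ∈ N, k i) / N.card) ^ 2
      + 111 / 500 * ((∑ i ∈ N, (2 * z i * η i - k i ^ 2)) / N.card)
      + κ * (m - (∑ i ∈ N, z i ^ 2) / N.card)
      + c - max 0 (1 - 809 / 500 * m) * (6674 / 10000) := by
  have hm0 : 0 < m := by linarith
  have he0 : 0 < e := by linarith
  have hg1 : 1498 / 1000 ≤ 1 / e := by rw [le_div_iff₀ he0]; linarith
  have hg2 : 1 / e ≤ 2737 / 1000 := by rw [div_le_iff₀ he0]; linarith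
  obtain ⟨d, c', hL0, hP⟩ := rangesJ hg1 hg2
  obtain ⟨M, hM⟩ : ∃ M, M = max 0 (1 - 809 / 500 * m) := ⟨_, rfl⟩
  rw [← hM]
  have hE : κ * m ≤ 646 / 10000 := by nlinarith
  have hconst : 1 / 200000 + 450514 / 1000000 * (m * e) + 1165 / 100000 * m ≤
      ((2 * m - 1222 / 1000) * e + κ * m + c - M * (6674 / 10000)) + 444 / 1000 * (m * e) -
        κ * m ^ 2 := by
    have h1 : 10434 / 100000 * (m * (1 - m)) ≤ κ * (m * (1 - m)) :=
      mul_le_mul_of_nonneg_right hκ1 (mul_nonneg hm0.le (by linarith))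
    have h2 : 0 ≤ (1993486 / 1000000 * m - 1222 / 1000) * e := mul_nonneg (by linarith) he0.le
    rcases le_total 0 (1 - 809 / 500 * m) with h | h
    · rw [hM, max_eq_right h]
      nlinarith
    · rw [hM, max_eq_left h]
      nlinarith
  have hpt := point_gen hm1 hm2 he0 hL0 hP hE hconst
  have := law_avg N hN z η k hz0 hη0 hk1 hm he hm0 he0
    (fun i hi => hpt (z i) (η i) (k i) (hz0 i hi) (hz1 i hi) (hη0 i hi) (hη1 i hi) (hη2 i hi)
      (hη3 i hi) (hη4 i hi) (hη5 i hi) (hk1 i hi) (hk2 i hi))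
  linarith

/-- elements outside `J`, middle range -/
theorem law_mid {ι : Type*} (N : Finset ι) (hN : N.Nonempty) (z η k : ι → ℝ)
    (hz0 : ∀ i ∈ N, 0 ≤ z i) (hz1 : ∀ i ∈ N, z i ≤ 1) (hη0 : ∀ i ∈ N, 0 ≤ η i)
    (hη1 : ∀ i ∈ N, η i ≤ 69315 / 100000)
    (hη2 : ∀ i ∈ N, η i ≤ 16252 / 100000 + 173460 / 100000 * z i)
    (hη3 : ∀ i ∈ N, η i ≤ 35668 / 100000 + 84730 / 100000 * z i)
    (hη4 : ∀ i ∈ N, η i ≤ 160944 / 100000 - 138629 / 100000 * z i)
    (hη5 : ∀ i ∈ N, η i ≤ 283322 / 100000 - 277259 / 100000 * z i)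
    (hk1 : ∀ i ∈ N, k i ^ 2 ≤ 382 / 1000 * (z i * η i))
    (hk2 : ∀ i ∈ N, ∀ p ∈ prs,
      k i ^ 2 ≤ η i * ((p.1 : ℝ) / 1000 * z i + (p.2 : ℝ) / 10000 * η i))
    {m e : ℝ} (hm : ∑ i ∈ N, z i = m * N.card)
    (he : ∑ i ∈ N, η i = e * N.card) (hm1 : 613 / 1000 ≤ m) (hm2 : m ≤ 619 / 1000)
    (he1 : 5 / 64 ≤ e) (he2 : e ≤ 36707 / 100000) :
    1 / 4000 * e ≤ (2 * m - 1222 / 1000) * e
      - ((∑ i ∈ N, k i) / N.card) ^ 2
      + 111 / 500 * ((∑ i ∈ N, (2 * z i * η i - k i ^ 2)) / N.card) := by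
  have hm0 : 0 < m := by linarith
  have he0 : 0 < e := by linarith
  have hg1 : 2724 / 1000 ≤ 1 / e := by rw [le_div_iff₀ he0]; linarith
  have hg2 : 1 / e ≤ 12800 / 1000 := by rw [div_le_iff₀ he0]; linarith
  obtain ⟨d, c', hL0, hP⟩ := rangesR hg1 hg2
  have hE : (0 : ℝ) * m ≤ 0 := by linarith
  have hconst : 1 / 4000 * e + 450104 / 1000000 * (m * e) + 0 * m ≤
      ((2 * m - 1222 / 1000) * e) + 444 / 1000 * (m * e) - 0 * m ^ 2 := by
    have h2 : 0 ≤ (1993896 / 1000000 * m - 122225 / 100000) * e := mul_nonneg (by linarith) he0.le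
    linarith
  have hpt := point_gen hm1 hm2 he0 hL0 hP hE hconst
  have := law_avg N hN z η k hz0 hη0 hk1 hm he hm0 he0
    (fun i hi => hpt (z i) (η i) (k i) (hz0 i hi) (hz1 i hi) (hη0 i hi) (hη1 i hi) (hη2 i hi)
      (hη3 i hi) (hη4 i hi) (hη5 i hi) (hk1 i hi) (hk2 i hi))
  linarith

/-- elements outside `J`, small entropy -/
theorem law_off {m e R K W : ℝ} (hm1 : 613 / 1000 ≤ m) (he0 : 0 ≤ e)
    (he1 : e ≤ 5 / 64) (hK0 : 0 ≤ K)
    (hK : K ≤ 533 / 1000 * R + 1 / 10 * e) (hW : R ^ 2 ≤ W) :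
    1 / 4000 * e ≤ (2 * m - 1222 / 1000) * e - K ^ 2 + 359196 / 1000000 * W := by
  have h1 : K ^ 2 ≤ (533 / 1000 * R + 1 / 10 * e) ^ 2 := pow_le_pow_left₀ hK0 hK 2
  have h2 : (4 / 1000) * e ≤ (2 * m - 1222 / 1000) * e :=
    mul_le_mul_of_nonneg_right (by linarith) he0
  have h3 : e ^ 2 ≤ 5 / 64 * e := by nlinarith
  have h4 : 0 ≤ (R - 709654 / 1000000 * e) ^ 2 := sq_nonneg _
  nlinarith

/-- elements with a large average -/
theorem law_big {m e R K W : ℝ} (hm1 : 619 / 1000 ≤ m) (he0 : 0 ≤ e)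
    (hRe : R ^ 2 ≤ m * e) (hK : K ^ 2 ≤ 191 / 500 * R ^ 2) (hW : R ^ 2 ≤ W) :
    1 / 4000 * e ≤ (2 * m - 1222 / 1000) * e - K ^ 2 + 359196 / 1000000 * W := by
  have h6 : 619 / 1000 * e ≤ m * e := mul_le_mul_of_nonneg_right hm1 he0
  nlinarith

end Pool.Agent.H775.UC387
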