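import Mathlib

/-!
Kernel-checked rational bounds for logarithms and for the binary entropy.
-/

namespace Pool.Agent.H775.UC387

open Real Finset

lemma binEntropy_eq' (p : ℝ) : binEntropy p = - p * log p - (1 - p) * log (1 - p) := by
  unfold binEntropy
  rw [log_inv, log_inv]; ring

/-- Horner form of `∑_{i<n} u2^i / (2(k+i)+1)` -/
def hor (u2 : ℚ) : ℕ → ℕ → ℚ
  | 0, _ => 0
  | n + 1, k => 1 / (2 * (k : ℚ) + 1) + u2 * hor u2 n (k + 1)

lemma hor_eq (u2 : ℚ) (n k : ℕ) :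
    ((hor u2 n k : ℚ) : ℝ) = ∑ i ∈ range n, (u2 : ℝ) ^ i / (2 * ((k : ℝ) + i) + 1) := by
  induction n generalizing k with
  | zero => simp [hor]
  | succ n ih =>
    rw [sum_range_succ']
    simp only [hor]
    push_cast
    rw [ih (k + 1), mul_sum]
    have : ∀ i ∈ range n, (u2 : ℝ) * ((u2 : ℝ) ^ i / (2 * (((k + 1 : ℕ) : ℝ) + i) + 1))
        = (u2 : ℝ) ^ (i + 1) / (2 * ((k : ℝ) + ((i : ℝ) + 1)) + 1) := by
      intro i _
      push_cast
      rw [pow_succ]
      have h1 : (2 * ((k : ℝ) + 1 + i) + 1) ≠ 0 := by positivity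
      have h2 : (2 * ((k : ℝ) + ((i : ℝ) + 1)) + 1) ≠ 0 := by positivity
      rw [show (2 * ((k : ℝ) + 1 + i) + 1) = (2 * ((k : ℝ) + ((i : ℝ) + 1)) + 1) by ring]
      ring
    rw [sum_congr rfl this]
    simp
    ring

def flr (x : ℚ) : ℚ := (⌊x * 10000000000⌋ : ℚ) / 10000000000
def cei (x : ℚ) : ℚ := (⌈x * 10000000000⌉ : ℚ) / 10000000000

lemma flr_le (x : ℚ) : flr x ≤ x := by
  unfold flr
  rw [div_le_iff₀ (by norm_num)]
  exact Int.floor_le _

lemma le_cei (x : ℚ) : x ≤ cei x := by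
  unfold cei
  rw [le_div_iff₀ (by norm_num)]
  exact Int.le_ceil _

/-- lower bound for `-log (n/d)` -/
def nlLo (n d : ℕ) : ℚ :=
  let k := Nat.log2 (d / n)
  let u : ℚ := ((d : ℚ) - n * 2 ^ k) / ((d : ℚ) + n * 2 ^ k)
  if 0 ≤ u ∧ u < 1 then flr (k * 0.6931471803 + 2 * (u * hor (u ^ 2) 8 0)) else 0

/-- upper bound for `-log (n/d)` -/
def nlUp (n d : ℕ) : ℚ :=
  let k := Nat.log2 (d / n)
  let u : ℚ := ((d : ℚ) - n * 2 ^ k) / ((d : ℚ) + n * 2 ^ k)
  if 0 ≤ u ∧ u < 1 then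
    cei (k * 0.6931471808 + 2 * (u * hor (u ^ 2) 8 0 + u ^ 17 / (1 - u ^ 2)))
  else (d : ℚ) / n

lemma hor_sum (u : ℚ) :
    (((u * hor (u ^ 2) 8 0 : ℚ)) : ℝ) = ∑ i ∈ range 8, (u : ℝ) ^ (2 * i + 1) / (2 * i + 1) := by
  push_cast
  rw [hor_eq, mul_sum]
  apply sum_congr rfl
  intro i _
  push_cast
  rw [zero_add, ← pow_mul, pow_succ]
  ring

lemma log_decomp {n d k : ℕ} (hn : 0 < n) (hd : 0 < d) :
    -log ((n : ℝ) / d) = k * log 2 + log ((1 + ((d : ℝ) - n * 2 ^ k) / ((d : ℝ) + n * 2 ^ k))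
      / (1 - ((d : ℝ) - n * 2 ^ k) / ((d : ℝ) + n * 2 ^ k))) := by
  have h1 : (0:ℝ) < n := by exact_mod_cast hn
  have h2 : (0:ℝ) < d := by exact_mod_cast hd
  have h3 : (0:ℝ) < 2 ^ k := by positivity
  have h4 : (0:ℝ) < (d : ℝ) + n * 2 ^ k := by positivity
  have e : (1 + ((d : ℝ) - n * 2 ^ k) / ((d : ℝ) + n * 2 ^ k))
      / (1 - ((d : ℝ) - n * 2 ^ k) / ((d : ℝ) + n * 2 ^ k)) = d / (n * 2 ^ k) := by
    have e1 : 1 + ((d : ℝ) - n * 2 ^ k) / ((d : ℝ) + n * 2 ^ k)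
        = 2 * d / ((d : ℝ) + n * 2 ^ k) := by field_simp; ring
    have e2 : 1 - ((d : ℝ) - n * 2 ^ k) / ((d : ℝ) + n * 2 ^ k)
        = 2 * (n * 2 ^ k) / ((d : ℝ) + n * 2 ^ k) := by field_simp; ring
    rw [e1, e2]
    field_simp
  rw [e, log_div h1.ne' h2.ne', log_div h2.ne' (by positivity), log_mul h1.ne' h3.ne', log_pow]
  ring

theorem nlLo_le {n d : ℕ} (hn : 0 < n) (hnd : n ≤ d) : ((nlLo n d : ℚ) : ℝ) ≤ -log ((n : ℝ) / d) := by
  have hd : 0 < d := lt_of_lt_of_le hn hnd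
  unfold nlLo
  simp only
  split_ifs with hu
  · set k := Nat.log2 (d / n)
    set u : ℚ := ((d : ℚ) - n * 2 ^ k) / ((d : ℚ) + n * 2 ^ k) with hudef
    have hu0 : (0:ℝ) ≤ (u : ℝ) := by exact_mod_cast hu.1
    have hu1 : (u : ℝ) < 1 := by exact_mod_cast hu.2
    have h1 : ((flr (k * 0.6931471803 + 2 * (u * hor (u ^ 2) 8 0)) : ℚ) : ℝ)
        ≤ ((k * 0.6931471803 + 2 * (u * hor (u ^ 2) 8 0) : ℚ) : ℝ) := by
      exact_mod_cast flr_le _
    refine h1.trans ?_
    rw [log_decomp (k := k) hn hd]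
    have hur : ((d : ℝ) - n * 2 ^ k) / ((d : ℝ) + n * 2 ^ k) = (u : ℝ) := by
      rw [hudef]; push_cast; ring
    rw [hur]
    have h2 := sum_range_le_log_div hu0 hu1 8
    rw [← hor_sum] at h2
    have h3 := log_two_gt_d9
    have h4 : (0:ℝ) ≤ (k : ℝ) := by positivity
    have h5 : (k : ℝ) * 0.6931471803 ≤ k * log 2 := by nlinarith
    push_cast at h2 ⊢
    norm_num at h2 h5 ⊢
    linarith
  · have : (n : ℝ) / d ≤ 1 := by
      rw [div_le_one (by exact_mod_cast hd)]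
      exact_mod_cast hnd
    have h2 : log ((n : ℝ) / d) ≤ 0 := log_nonpos (by positivity) this
    simp
    linarith

theorem le_nlUp {n d : ℕ} (hn : 0 < n) (hnd : n ≤ d) : -log ((n : ℝ) / d) ≤ ((nlUp n d : ℚ) : ℝ) := by
  have hd : 0 < d := lt_of_lt_of_le hn hnd
  unfold nlUp
  simp only
  split_ifs with hu
  · set k := Nat.log2 (d / n)
    set u : ℚ := ((d : ℚ) - n * 2 ^ k) / ((d : ℚ) + n * 2 ^ k) with hudef
    have hu0 : (0:ℝ) ≤ (u : ℝ) := by exact_mod_cast hu.1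
    have hu1 : (u : ℝ) < 1 := by exact_mod_cast hu.2
    have h1 : ((k * 0.6931471808 + 2 * (u * hor (u ^ 2) 8 0 + u ^ 17 / (1 - u ^ 2)) : ℚ) : ℝ)
        ≤ ((cei (k * 0.6931471808 + 2 * (u * hor (u ^ 2) 8 0 + u ^ 17 / (1 - u ^ 2))) : ℚ) : ℝ) := by
      exact_mod_cast le_cei _
    refine le_trans ?_ h1
    rw [log_decomp (k := k) hn hd]
    have hur : ((d : ℝ) - n * 2 ^ k) / ((d : ℝ) + n * 2 ^ k) = (u : ℝ) := by
      rw [hudef]; push_cast; ring
    rw [hur]
    have h2 := log_div_le_sum_range_add hu0 hu1 8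
    rw [← hor_sum] at h2
    have h3 := log_two_lt_d9
    have h4 : (0:ℝ) ≤ (k : ℝ) := by positivity
    have h5 : k * log 2 ≤ (k : ℝ) * 0.6931471808 := by nlinarith
    push_cast at h2 ⊢
    norm_num at h2 h5 ⊢
    linarith
  · have hpos : (0:ℝ) < (n : ℝ) / d := by
      have : (0:ℝ) < n := by exact_mod_cast hn
      have : (0:ℝ) < d := by exact_mod_cast hd
      positivity
    have h1 := one_sub_inv_le_log_of_pos hpos
    rw [inv_div] at h1
    push_cast
    linarith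

/-- lower bound for `H(n/d)`, `0 < n < d` -/
def HLo (n d : ℕ) : ℚ :=
  if 0 < n ∧ n < d then
    flr ((n : ℚ) / d * nlLo n d + ((d - n : ℕ) : ℚ) / d * nlLo (d - n) d)
  else 0

theorem HLo_le (n d : ℕ) (hnd : n ≤ d) : ((HLo n d : ℚ) : ℝ) ≤ binEntropy ((n : ℝ) / d) := by
  unfold HLo
  split_ifs with h
  · obtain ⟨h0, h1⟩ := h
    have e : 1 - (n : ℝ) / d = ((d - n : ℕ) : ℝ) / d := by
      rw [Nat.cast_sub hnd]
      have : (d : ℝ) ≠ 0 := by
        have : 0 < d := by omega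
        positivity
      field_simp
    have hf : ((flr ((n : ℚ) / d * nlLo n d + ((d - n : ℕ) : ℚ) / d * nlLo (d - n) d) : ℚ) : ℝ)
        ≤ (((n : ℚ) / d * nlLo n d + ((d - n : ℕ) : ℚ) / d * nlLo (d - n) d : ℚ) : ℝ) := by
      exact_mod_cast flr_le _
    refine hf.trans ?_
    rw [binEntropy_eq', e]
    have a1 := nlLo_le h0 hnd
    have a2 := nlLo_le (n := d - n) (d := d) (by omega) (by omega)
    have a3 := mul_le_mul_of_nonneg_left a1 (show 0 ≤ (n : ℝ) / d by positivity)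
    have a4 := mul_le_mul_of_nonneg_left a2 (show 0 ≤ ((d - n : ℕ) : ℝ) / d by positivity)
    push_cast at a3 a4 ⊢
    linarith
  · have : 0 ≤ binEntropy ((n : ℝ) / d) := by
      apply binEntropy_nonneg (by positivity)
      apply div_le_one_of_le₀ _ (by positivity)
      exact_mod_cast hnd
    simpa using this

/-- cross-entropy bound (Gibbs) -/
lemma binEntropy_le_cross {z w : ℝ} (hz0 : 0 ≤ z) (hz1 : z ≤ 1) (hw0 : 0 < w) (hw1 : w < 1) :
    binEntropy z ≤ z * (-log w) + (1 - z) * (-log (1 - w)) := by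
  rw [binEntropy_eq']
  have h1 : -z * log z + z * log w ≤ w - z := by
    rcases eq_or_lt_of_le hz0 with h | h
    · rw [← h]; simp; exact hw0.le
    · have := log_le_sub_one_of_pos (show 0 < w / z by positivity)
      rw [log_div hw0.ne' h.ne'] at this
      have h2 := mul_le_mul_of_nonneg_left this h.le
      have e : z * (w / z - 1) = w - z := by field_simp
      rw [e] at h2
      linarith
  have h2 : -(1 - z) * log (1 - z) + (1 - z) * log (1 - w) ≤ (1 - w) - (1 - z) := by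
    rcases eq_or_lt_of_le hz1 with h | h
    · rw [h]; simp; exact hw1.le
    · have h' : 0 < 1 - z := by linarith
      have h'' : 0 < 1 - w := by linarith
      have := log_le_sub_one_of_pos (show 0 < (1 - w) / (1 - z) by positivity)
      rw [log_div h''.ne' h'.ne'] at this
      have h2 := mul_le_mul_of_nonneg_left this h'.le
      have e : (1 - z) * ((1 - w) / (1 - z) - 1) = (1 - w) - (1 - z) := by field_simp
      rw [e] at h2
      linarith
  linarith

/-- chord bound (concavity) -/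
lemma chord_le {p0 p1 p : ℝ} (h0 : 0 ≤ p0) (h1 : p1 ≤ 1) (h01 : p0 < p1) (hp0 : p0 ≤ p)
    (hp1 : p ≤ p1) :
    (p1 - p) * binEntropy p0 + (p - p0) * binEntropy p1 ≤ (p1 - p0) * binEntropy p := by
  have hc := strictConcave_binEntropy.concaveOn
  have hd : 0 < p1 - p0 := by linarith
  have := hc.2 (show p0 ∈ Set.Icc (0:ℝ) 1 from ⟨h0, by linarith⟩)
    (show p1 ∈ Set.Icc (0:ℝ) 1 from ⟨by linarith, h1⟩)
    (show 0 ≤ (p1 - p) / (p1 - p0) by apply div_nonneg <;> linarith)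
    (show 0 ≤ (p - p0) / (p1 - p0) by apply div_nonneg <;> linarith)
    (by field_simp; ring)
  simp only [smul_eq_mul] at this
  have e1 : (p1 - p) / (p1 - p0) * p0 + (p - p0) / (p1 - p0) * p1 = p := by
    field_simp; ring
  rw [e1] at this
  have h2 := mul_le_mul_of_nonneg_left this hd.le
  have e2 : (p1 - p0) * ((p1 - p) / (p1 - p0) * binEntropy p0
      + (p - p0) / (p1 - p0) * binEntropy p1)
      = (p1 - p) * binEntropy p0 + (p - p0) * binEntropy p1 := by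
    field_simp
  linarith

end Pool.Agent.H775.UC387
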