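import Mathlib
import Pool.Agent.H775.UC387.Num
import Pool.Graph.R_seed8.H286R2.UC.U3
import Pool.Graph.R_seed8.H286R2.UC.U8a
import Pool.Graph.R_seed8.H286R2.UC.U8b
import Pool.Graph.R_seed8.H286R2.UC.U9

set_option autoImplicit false

/-!
# Kernel bounds `NN x x ≤ hb x * (A x + B hb x)`
-/

namespace Pool.Agent.H775.UC387

open Real Finset Pool.Agent.H117R2 Pool.Agent.H117R2.UC Pool.Agent.H286R2.UC
open Pool.Agent.H286R2.UC.U9aux (hb_eq)
open Pool.Agent.H286R2.UC.U3aux (NN_eq)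
open Pool.Agent.H286R2.UC.U8baux (NN_diag)

/-- one cell -/
def cellP (A B : ℚ) (M N0 N1 : ℕ) : Bool :=
  let a : ℚ := (N0 : ℚ) / M
  let b : ℚ := (N1 : ℚ) / M
  let Ha := HLo N0 M
  let Hb := HLo N1 M
  let Ha2 := HLo (N0 ^ 2) (M ^ 2)
  let Hb2 := HLo (N1 ^ 2) (M ^ 2)
  let u := nlUp (N0 + N1) (2 * M)
  let v := nlUp (2 * M - (N0 + N1)) (2 * M)
  let Ta := a * u + (1 - a) * v
  let Tb := b * u + (1 - b) * v
  decide (0 < N0) && decide (N0 < N1) && decide (N1 < M) && decide (0 ≤ Ha) && decide (0 ≤ Hb)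
    && decide (0 ≤ Ha2 - (2 - A) * (a * Ta) + B * (Ha * Ha))
    && decide (0 ≤ Ha2 * b + Hb2 * a - (2 - A) * (a * Tb + b * Ta) / 2 * (a + b)
        + B * (Ha * Hb) * (a + b))
    && decide (0 ≤ Hb2 - (2 - A) * (b * Tb) + B * (Hb * Hb))

theorem cellP_sound {A B : ℚ} (hA : A ≤ 2) (hB : 0 ≤ B) {M N0 N1 : ℕ}
    (h : cellP A B M N0 N1 = true) {x : ℝ} (hx0 : (N0 : ℝ) / M ≤ x) (hx1 : x ≤ (N1 : ℝ) / M) :
    0 ≤ binEntropy (x ^ 2) - (2 - A) * (x * binEntropy x) + B * binEntropy x ^ 2 := by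
  unfold cellP at h
  simp only [Bool.and_eq_true, decide_eq_true_eq] at h
  obtain ⟨⟨⟨⟨⟨⟨⟨hN0, h01⟩, hN1⟩, hHa⟩, hHb⟩, hb0⟩, hb1⟩, hb2⟩ := h
  have hM : 0 < M := by omega
  have hM0 : (0:ℝ) < M := by exact_mod_cast hM
  have hN01 : (N0 : ℝ) < N1 := by exact_mod_cast h01
  have hN0' : (0 : ℝ) < N0 := by exact_mod_cast hN0
  have hN1M : (N1 : ℝ) < M := by exact_mod_cast hN1
  have hb0' := (Rat.cast_nonneg (K := ℝ)).2 hb0
  have hb1' := (Rat.cast_nonneg (K := ℝ)).2 hb1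
  have hb2' := (Rat.cast_nonneg (K := ℝ)).2 hb2
  push_cast at hb0' hb1' hb2'
  have hHa' : (0 : ℝ) ≤ ((HLo N0 M : ℚ) : ℝ) := by exact_mod_cast hHa
  have hHb' : (0 : ℝ) ≤ ((HLo N1 M : ℚ) : ℝ) := by exact_mod_cast hHb
  have lA := HLo_le N0 M (by omega)
  have lB := HLo_le N1 M (by omega)
  have lA2 := HLo_le (N0 ^ 2) (M ^ 2) (Nat.pow_le_pow_left (by omega) 2)
  have lB2 := HLo_le (N1 ^ 2) (M ^ 2) (Nat.pow_le_pow_left (by omega) 2)
  have e2 : ∀ N : ℕ, (((N ^ 2 : ℕ) : ℝ) / ((M ^ 2 : ℕ) : ℝ)) = ((N : ℝ) / M) ^ 2 := by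
    intro N; push_cast; rw [div_pow]
  rw [e2] at lA2 lB2
  have hu := le_nlUp (n := N0 + N1) (d := 2 * M) (by omega) (by omega)
  have hv := le_nlUp (n := 2 * M - (N0 + N1)) (d := 2 * M) (by omega) (by omega)
  obtain ⟨a, ha⟩ : ∃ a : ℝ, a = (N0 : ℝ) / M := ⟨_, rfl⟩
  obtain ⟨b, hb⟩ : ∃ b : ℝ, b = (N1 : ℝ) / M := ⟨_, rfl⟩
  obtain ⟨Ha, eHa⟩ : ∃ t : ℝ, t = ((HLo N0 M : ℚ) : ℝ) := ⟨_, rfl⟩
  obtain ⟨Hb, eHb⟩ : ∃ t : ℝ, t = ((HLo N1 M : ℚ) : ℝ) := ⟨_, rfl⟩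
  obtain ⟨Ha2, eHa2⟩ : ∃ t : ℝ, t = ((HLo (N0 ^ 2) (M ^ 2) : ℚ) : ℝ) := ⟨_, rfl⟩
  obtain ⟨Hb2, eHb2⟩ : ∃ t : ℝ, t = ((HLo (N1 ^ 2) (M ^ 2) : ℚ) : ℝ) := ⟨_, rfl⟩
  obtain ⟨u, eu⟩ : ∃ t : ℝ, t = ((nlUp (N0 + N1) (2 * M) : ℚ) : ℝ) := ⟨_, rfl⟩
  obtain ⟨v, ev⟩ : ∃ t : ℝ, t = ((nlUp (2 * M - (N0 + N1)) (2 * M) : ℚ) : ℝ) := ⟨_, rfl⟩
  have ha0 : 0 < a := by rw [ha]; positivity
  have hab : a < b := by rw [ha, hb]; gcongr
  have hb1'' : b < 1 := by rw [hb, div_lt_one hM0]; exact hN1M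
  rw [← ha, ← eHa, ← eHa2, ← eu, ← ev] at hb0'
  rw [← hb, ← eHb, ← eHb2, ← eu, ← ev] at hb2'
  rw [← ha, ← hb, ← eHa, ← eHa2, ← eHb, ← eHb2, ← eu, ← ev] at hb1'
  rw [← ha, ← eHa] at lA
  rw [← hb, ← eHb] at lB
  rw [← ha, ← eHa2] at lA2
  rw [← hb, ← eHb2] at lB2
  rw [← eu] at hu
  rw [← ev] at hv
  rw [← eHa] at hHa'
  rw [← eHb] at hHb'
  rw [← ha] at hx0
  rw [← hb] at hx1
  have ew : 1 - (((N0 + N1 : ℕ) : ℝ) / ((2 * M : ℕ) : ℝ))
      = (((2 * M - (N0 + N1) : ℕ) : ℝ) / ((2 * M : ℕ) : ℝ)) := by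
    rw [Nat.cast_sub (by omega)]
    push_cast
    field_simp
  have hx0' : 0 ≤ x := by linarith
  have hx1' : x ≤ 1 := by linarith
  have hw0 : (0:ℝ) < ((N0 + N1 : ℕ) : ℝ) / ((2 * M : ℕ) : ℝ) := by
    have : 0 < N0 + N1 := by omega
    positivity
  have hw1 : (((N0 + N1 : ℕ) : ℝ) / ((2 * M : ℕ) : ℝ)) < 1 := by
    rw [div_lt_one (by positivity)]
    exact_mod_cast (by omega : N0 + N1 < 2 * M)
  have hX := binEntropy_le_cross hx0' hx1' hw0 hw1
  rw [ew] at hX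
  have hX2 : binEntropy x ≤ x * u + (1 - x) * v := by
    have := mul_le_mul_of_nonneg_left hu hx0'
    have := mul_le_mul_of_nonneg_left hv (show 0 ≤ 1 - x by linarith)
    linarith
  have hA' : (0 : ℝ) ≤ 2 - A := by
    have : (A : ℝ) ≤ 2 := by exact_mod_cast hA
    linarith
  have hB' : (0 : ℝ) ≤ B := by exact_mod_cast hB
  have hd : 0 < b - a := by linarith
  have hab2 : a ^ 2 < b ^ 2 := pow_lt_pow_left₀ hab ha0.le (by norm_num)
  have hax2 : a ^ 2 ≤ x ^ 2 := pow_le_pow_left₀ ha0.le hx0 2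
  have hxb2 : x ^ 2 ≤ b ^ 2 := pow_le_pow_left₀ hx0' hx1 2
  have hb21 : b ^ 2 ≤ 1 := pow_le_one₀ (by linarith) hb1''.le
  have s1 : 0 ≤ b ^ 2 - x ^ 2 := sub_nonneg.2 hxb2
  have s2 : 0 ≤ x ^ 2 - a ^ 2 := sub_nonneg.2 hax2
  have s3 : 0 < b ^ 2 - a ^ 2 := sub_pos.2 hab2
  -- lower bounds
  have k1 := chord_le (p0 := a) (p1 := b) (p := x) ha0.le hb1''.le hab hx0 hx1
  have k2 := chord_le (p0 := a ^ 2) (p1 := b ^ 2) (p := x ^ 2) (by positivity) hb21
    hab2 hax2 hxb2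
  have hLH : ((b - x) * Ha + (x - a) * Hb) ≤ (b - a) * binEntropy x := by
    have := mul_le_mul_of_nonneg_left lA (show 0 ≤ b - x by linarith)
    have := mul_le_mul_of_nonneg_left lB (show 0 ≤ x - a by linarith)
    linarith
  have hLH0 : 0 ≤ (b - x) * Ha + (x - a) * Hb :=
    add_nonneg (mul_nonneg (by linarith) hHa') (mul_nonneg (by linarith) hHb')
  have hsq : ((b - x) * Ha + (x - a) * Hb) ^ 2 ≤ ((b - a) * binEntropy x) ^ 2 :=
    pow_le_pow_left₀ hLH0 hLH 2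
  have hL2 : (b ^ 2 - x ^ 2) * Ha2 + (x ^ 2 - a ^ 2) * Hb2 ≤ (b ^ 2 - a ^ 2) * binEntropy (x ^ 2) := by
    have := mul_le_mul_of_nonneg_left lA2 s1
    have := mul_le_mul_of_nonneg_left lB2 s2
    linarith
  have hT : x * binEntropy x ≤ x * (x * u + (1 - x) * v) := mul_le_mul_of_nonneg_left hX2 hx0'
  -- combination
  have main : 0 ≤ (b - a) * ((b ^ 2 - x ^ 2) * Ha2 + (x ^ 2 - a ^ 2) * Hb2) -
      (2 - A) * (x * (x * u + (1 - x) * v)) * ((b - a) * (b ^ 2 - a ^ 2)) +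
      B * ((b - x) * Ha + (x - a) * Hb) ^ 2 * (a + b) := by
    have e : (b - a) * ((b ^ 2 - x ^ 2) * Ha2 + (x ^ 2 - a ^ 2) * Hb2) -
      (2 - A) * (x * (x * u + (1 - x) * v)) * ((b - a) * (b ^ 2 - a ^ 2)) +
      B * ((b - x) * Ha + (x - a) * Hb) ^ 2 * (a + b) =
      (b - x) ^ 2 * (a + b) * (Ha2 - (2 - A) * (a * (a * u + (1 - a) * v)) + B * (Ha * Ha)) +
      2 * ((b - x) * (x - a)) * (Ha2 * b + Hb2 * a -
        (2 - A) * (a * (b * u + (1 - b) * v) + b * (a * u + (1 - a) * v)) / 2 * (a + b) +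
        B * (Ha * Hb) * (a + b)) +
      (x - a) ^ 2 * (a + b) * (Hb2 - (2 - A) * (b * (b * u + (1 - b) * v)) + B * (Hb * Hb)) := by
      ring
    rw [e]
    have t1 : 0 ≤ (b - x) ^ 2 * (a + b) := mul_nonneg (sq_nonneg _) (by linarith)
    have t2 : 0 ≤ 2 * ((b - x) * (x - a)) :=
      mul_nonneg (by norm_num) (mul_nonneg (by linarith) (by linarith))
    have t3 : 0 ≤ (x - a) ^ 2 * (a + b) := mul_nonneg (sq_nonneg _) (by linarith)
    exact add_nonneg (add_nonneg (mul_nonneg t1 hb0') (mul_nonneg t2 hb1')) (mul_nonneg t3 hb2')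
  have fin : 0 ≤ ((b - a) * (b ^ 2 - a ^ 2)) * (binEntropy (x ^ 2) -
      (2 - A) * (x * binEntropy x) + B * binEntropy x ^ 2) := by
    have hdd : 0 ≤ (b - a) * (b ^ 2 - a ^ 2) := mul_nonneg hd.le s3.le
    have f1 := mul_le_mul_of_nonneg_left hL2 hd.le
    have f2 := mul_le_mul_of_nonneg_left hT (mul_nonneg hA' hdd)
    have f3 := mul_le_mul_of_nonneg_left hsq (mul_nonneg hB' (show 0 ≤ a + b by linarith))
    have e : ((b - a) * (b ^ 2 - a ^ 2)) * (binEntropy (x ^ 2) -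
      (2 - A) * (x * binEntropy x) + B * binEntropy x ^ 2) =
      (b - a) * ((b ^ 2 - a ^ 2) * binEntropy (x ^ 2)) -
      (2 - A) * ((b - a) * (b ^ 2 - a ^ 2)) * (x * binEntropy x) +
      B * (a + b) * ((b - a) * binEntropy x) ^ 2 := by ring
    rw [e]
    linarith
  exact nonneg_of_mul_nonneg_right fin (mul_pos hd s3)

/-- a chain of cells -/
def chainP (A B : ℚ) (M : ℕ) : ℕ → List ℕ → Bool
  | _, [] => true
  | N0, N1 :: L => cellP A B M N0 N1 && chainP A B M N1 L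

theorem chainP_sound {A B : ℚ} (hA : A ≤ 2) (hB : 0 ≤ B) {M : ℕ} (N0 : ℕ) (L : List ℕ)
    (h : chainP A B M N0 L = true) {x : ℝ} (hx0 : (N0 : ℝ) / M ≤ x)
    (hx1 : x ≤ ((L.getLastD N0 : ℕ) : ℝ) / M) (hL : L ≠ []) :
    0 ≤ binEntropy (x ^ 2) - (2 - A) * (x * binEntropy x) + B * binEntropy x ^ 2 := by
  induction L generalizing N0 with
  | nil => exact absurd rfl hL
  | cons N1 L ih =>
    simp only [chainP, Bool.and_eq_true] at h
    by_cases hz : x ≤ (N1 : ℝ) / M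
    · exact cellP_sound hA hB h.1 hx0 hz
    · push Not at hz
      rcases L.eq_nil_or_concat with rfl | ⟨L', b, rfl⟩
      · simp at hx1
        linarith
      · refine ih N1 h.2 hz.le ?_ (by simp)
        have e1 : (L'.concat b).getLastD N1 = b := by simp
        have e2 : (N1 :: L'.concat b).getLastD N0 = b := by
          rw [List.getLastD_cons]; simp
        rw [e2] at hx1
        rw [e1]
        exact hx1

/-- small arguments -/
theorem pair_small {A B : ℝ} (hB : 0 ≤ B) {N M : ℕ} (hN : 0 < N) (hNM : N < M)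
    (hh : (382 / 1000 - A) * ((N : ℝ) / M) ≤ B * ((HLo N M : ℚ) : ℝ)) {x : ℝ} (hx0 : 0 ≤ x)
    (hx1 : x ≤ (N : ℝ) / M) : NN x x ≤ hb x * (A * x + B * hb x) := by
  have hM0 : (0 : ℝ) < M := by exact_mod_cast (by omega : 0 < M)
  have hN0 : (0 : ℝ) < N := by exact_mod_cast hN
  have hNM' : (N : ℝ) < M := by exact_mod_cast hNM
  obtain ⟨t, ht⟩ : ∃ t : ℝ, t = (N : ℝ) / M := ⟨_, rfl⟩
  have ht0 : 0 < t := by rw [ht]; positivity
  have ht1 : t < 1 := by rw [ht, div_lt_one hM0]; exact hNM'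
  rw [← ht] at hh hx1
  have hx1' : x ≤ 1 := by linarith
  have h1 := NN_diag_le hx0 hx1'
  have hh0 : 0 ≤ hb x := add_nonneg (negMulLog_nonneg hx0 hx1')
    (negMulLog_nonneg (by linarith) (by linarith))
  have hch := chord_le (p0 := 0) (p1 := t) (p := x) le_rfl ht1.le ht0 hx0 hx1
  rw [binEntropy_zero] at hch
  have hl := HLo_le N M hNM.le
  rw [← ht] at hl
  have h2 : (382 / 1000 - A) * x ≤ B * hb x := by
    rw [hb_eq]
    have h3 : x * ((382 / 1000 - A) * t) ≤ x * (B * binEntropy t) :=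
      mul_le_mul_of_nonneg_left (hh.trans (mul_le_mul_of_nonneg_left hl hB)) hx0
    have h4 : B * (x * binEntropy t) ≤ B * (t * binEntropy x) :=
      mul_le_mul_of_nonneg_left (by linarith) hB
    have h5 : t * ((382 / 1000 - A) * x) ≤ t * (B * binEntropy x) := by linarith
    exact le_of_mul_le_mul_left h5 ht0
  have h3 := mul_le_mul_of_nonneg_left h2 hh0
  linarith

/-- arguments close to one -/
theorem pair_big {A B : ℝ} (hA : 0 ≤ A) (hB : 0 ≤ B) {N M : ℕ} (hNM : N < M)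
    (hh : 13863 / 10000 ≤ A * ((N : ℝ) / M) * (((nlLo (M - N) M : ℚ) : ℝ) + (N : ℝ) / M))
    {x : ℝ} (hx0 : (N : ℝ) / M ≤ x) (hx1 : x < 1) : NN x x ≤ hb x * (A * x + B * hb x) := by
  have hM0 : (0 : ℝ) < M := by exact_mod_cast (by omega : 0 < M)
  have hl := nlLo_le (n := M - N) (d := M) (by omega) (by omega)
  obtain ⟨t, ht⟩ : ∃ t : ℝ, t = (N : ℝ) / M := ⟨_, rfl⟩
  have e1 : (((M - N : ℕ) : ℝ)) / M = 1 - t := by
    rw [ht, Nat.cast_sub hNM.le]; field_simp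
  rw [e1] at hl
  have ht0 : 0 ≤ t := by rw [ht]; positivity
  rw [← ht] at hh hx0
  obtain ⟨l, hle⟩ : ∃ l : ℝ, l = ((nlLo (M - N) M : ℚ) : ℝ) := ⟨_, rfl⟩
  rw [← hle] at hh hl
  have hxpos : 0 < x := by
    rcases ht0.eq_or_lt with h | h
    · rw [← h] at hh; norm_num at hh
    · linarith
  have hx' : 0 < 1 - x := by linarith
  have hlog : -log (1 - t) ≤ -log (1 - x) := by
    have := Real.log_le_log hx' (show 1 - x ≤ 1 - t by linarith)
    linarith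
  have hhb : (1 - x) * (l + t) ≤ hb x := by
    have h1 : (1 - x) * (l + t) ≤ (1 - x) * (-log (1 - x) + x) :=
      mul_le_mul_of_nonneg_left (by linarith) hx'.le
    have h2 : log x ≤ x - 1 := Real.log_le_sub_one_of_pos hxpos
    have h3 : x * log x ≤ x * (x - 1) := mul_le_mul_of_nonneg_left h2 hxpos.le
    unfold hb negMulLog
    linarith
  have hK : NN x x ≤ (1 - x) * (13863 / 10000) := by
    rw [NN_diag hxpos hx1]
    apply mul_le_mul_of_nonneg_left _ hx'.le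
    have h1 : (1 - x) * log (1 - x) ≤ 0 :=
      mul_nonpos_of_nonneg_of_nonpos hx'.le (Real.log_nonpos hx'.le (by linarith))
    have h2 : log (1 + x) ≤ log 2 := Real.log_le_log (by linarith) (by linarith)
    have h3 : log 2 < 0.6931471808 := Real.log_two_lt_d9
    have h4 : 0 ≤ log (1 + x) := Real.log_nonneg (by linarith)
    have h5 : (1 + x) * log (1 + x) ≤ 2 * log (1 + x) := mul_le_mul_of_nonneg_right (by linarith) h4
    norm_num at h3
    linarith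
  have hl0 : 0 ≤ l + t := by
    by_contra hneg
    push Not at hneg
    have : A * t * (l + t) ≤ 0 :=
      mul_nonpos_of_nonneg_of_nonpos (mul_nonneg hA ht0) hneg.le
    linarith
  have hh0 : 0 ≤ hb x := (mul_nonneg hx'.le hl0).trans hhb
  have h5 : (1 - x) * (13863 / 10000) ≤ (1 - x) * (A * t * (l + t)) :=
    mul_le_mul_of_nonneg_left hh hx'.le
  have h6 : A * t * ((1 - x) * (l + t)) ≤ A * t * hb x :=
    mul_le_mul_of_nonneg_left hhb (mul_nonneg hA ht0)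
  have h7 : A * t * hb x ≤ A * x * hb x :=
    mul_le_mul_of_nonneg_right (mul_le_mul_of_nonneg_left hx0 hA) hh0
  have h8 : 0 ≤ B * hb x ^ 2 := by positivity
  nlinarith

/-- the whole check for a pair -/
def pairOK (A B : ℕ) (N0 N1 : ℕ) (L : List ℕ) : Bool :=
  decide ((382 / 1000 - (A : ℚ) / 1000) * ((N0 : ℚ) / 16384) ≤ (B : ℚ) / 10000 * HLo N0 16384) &&
  decide (13863 / 10000 ≤ (A : ℚ) / 1000 * ((N1 : ℚ) / 16384) *
    (nlLo (16384 - N1) 16384 + (N1 : ℚ) / 16384)) &&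
  decide (0 < N0) && decide (N0 < 16384) && decide (N1 < 16384) && decide (A ≤ 2000) &&
  decide (L ≠ []) && decide (L.getLastD N0 = N1) &&
  chainP ((A : ℚ) / 1000) ((B : ℚ) / 10000) 16384 N0 L

theorem pair_of {A B N0 N1 : ℕ} {L : List ℕ} (h : pairOK A B N0 N1 L = true) {x : ℝ}
    (hx0 : 0 ≤ x) (hx1 : x ≤ 1) :
    NN x x ≤ hb x * ((A : ℝ) / 1000 * x + (B : ℝ) / 10000 * hb x) := by
  unfold pairOK at h
  simp only [Bool.and_eq_true, decide_eq_true_eq] at h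
  obtain ⟨⟨⟨⟨⟨⟨⟨⟨h1, h2⟩, h3⟩, h4⟩, h5⟩, h6⟩, h7⟩, h8⟩, h9⟩ := h
  have hA0 : (0 : ℝ) ≤ (A : ℝ) / 1000 := by positivity
  have hB0 : (0 : ℝ) ≤ (B : ℝ) / 10000 := by positivity
  rcases hx1.eq_or_lt with he | hlt
  · rw [he, NN_eq]
    have : hb 1 = 0 := by unfold hb; simp
    simp [this]
  rcases le_total x ((N0 : ℝ) / 16384) with ha | ha
  · have h1' : (382 / 1000 - (A : ℝ) / 1000) * ((N0 : ℝ) / ((16384 : ℕ) : ℝ)) ≤
        (B : ℝ) / 10000 * ((HLo N0 16384 : ℚ) : ℝ) := by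
      have : (((382 / 1000 - (A : ℚ) / 1000) * ((N0 : ℚ) / 16384) : ℚ) : ℝ) ≤
        (((B : ℚ) / 10000 * HLo N0 16384 : ℚ) : ℝ) := by exact_mod_cast h1
      push_cast at this ⊢
      exact this
    exact pair_small hB0 h3 h4 h1' hx0 (by push_cast; exact ha)
  rcases le_total ((N1 : ℝ) / 16384) x with hb' | hb'
  · have h2' : 13863 / 10000 ≤ (A : ℝ) / 1000 * ((N1 : ℝ) / ((16384 : ℕ) : ℝ)) *
        (((nlLo (16384 - N1) 16384 : ℚ) : ℝ) + (N1 : ℝ) / ((16384 : ℕ) : ℝ)) := by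
      have : ((13863 / 10000 : ℚ) : ℝ) ≤ (((A : ℚ) / 1000 * ((N1 : ℚ) / 16384) *
        (nlLo (16384 - N1) 16384 + (N1 : ℚ) / 16384) : ℚ) : ℝ) := by exact_mod_cast h2
      push_cast at this ⊢
      exact this
    exact pair_big hA0 hB0 h5 h2' (by push_cast; exact hb') hlt
  · have h10 := chainP_sound (A := (A : ℚ) / 1000) (B := (B : ℚ) / 10000)
      (by
        have : (A : ℚ) ≤ 2000 := by exact_mod_cast h6
        rw [div_le_iff₀ (by norm_num)]
        linarith) (by positivity) N0 L h9 (x := x) (by push_cast; exact ha)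
      (by rw [h8]; push_cast; exact hb') h7
    rw [← hb_eq, ← hb_eq] at h10
    rw [NN_eq]
    have e : x * x = x ^ 2 := by ring
    rw [e]
    push_cast at h10
    nlinarith

theorem pr1 : pairOK 220 4560 14778 16309
    [15361, 15639, 15785, 15868, 15917, 15948, 15968, 15982, 15993, 16002, 16012, 16024, 16040, 16062, 16092, 16133, 16185, 16244, 16302, 16309] = true := by decide +kernel

theorem pr2 : pairOK 250 2663 13935 16231
    [14618, 14979, 15182, 15302, 15376, 15422, 15452, 15472, 15486, 15497, 15506, 15516, 15528, 15544, 15567, 15600, 15648, 15716, 15809, 15928, 16065, 16200, 16231] = true := by decide +kernel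

theorem pr3 : pairOK 280 1610 13053 16120
    [13719, 14102, 14330, 14471, 14560, 14618, 14658, 14687, 14711, 14734, 14760, 14793, 14839, 14904, 14997, 15128, 15306, 15534, 15798, 16057, 16120] = true := by decide +kernel

theorem pr4 : pairOK 310 939 12173 15952
    [12707, 13040, 13253, 13393, 13488, 13556, 13609, 13657, 13708, 13770, 13853, 13968, 14130, 14356, 14662, 15051, 15496, 15921, 15952] = true := by decide +kernel

theorem pr5 : pairOK 350 341 11030 15762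
    [11296, 11479, 11609, 11706, 11786, 11860, 11940, 12037, 12165, 12342, 12589, 12934, 13406, 14022, 14759, 15507, 15762] = true := by decide +kernel

theorem pr6 : pairOK 370 117 10454 15624
    [10564, 10644, 10705, 10756, 10804, 10855, 10916, 10995, 11103, 11254, 11468, 11770, 12193, 12773, 13533, 14445, 15369, 15624] = true := by decide +kernel

end Pool.Agent.H775.UC387
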