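import Mathlib
import Pool.Agent.H775.UC387.Law
import Pool.Agent.H775.UC387.Pair
import Pool.Graph.R_seed8.TH688.UC.Gain

set_option autoImplicit false

/-!
# From the law inequalities to the gains, constant `0.387`
-/

namespace Pool.Agent.H775.UC387

open Real Finset Pool.Agent.H117R2 Pool.Agent.H117R2.UC Pool.Agent.H286R2.UC
open Pool.Agent.H286R2.UC.U13aux (G1_data G2_data Sg_empty)
open Pool.Agent.H286R2.UC.U13baux (avT_nu_sq)
open Pool.Agent.H286R2.UC.U9aux (hb_eq)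
open Pool.Agent.TH688.UC (hb_nonneg avT_hb_le avT_hb_nonneg)

variable {α : Type*} [DecidableEq α]

theorem cap_of {n d : ℕ} (hn : 0 < n) (hnd : n < d) {a b : ℚ} (ha : nlUp (d - n) d ≤ a)
    (hab : nlUp n d ≤ a + b) {x : ℝ} (h0 : 0 ≤ x) (h1 : x ≤ 1) : hb x ≤ a + b * x := by
  have hd0 : (0 : ℝ) < d := by exact_mod_cast (by omega : 0 < d)
  have hn0 : (0 : ℝ) < n := by exact_mod_cast hn
  have hnd' : (n : ℝ) < d := by exact_mod_cast hnd
  have hw0 : (0 : ℝ) < (n : ℝ) / d := by positivity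
  have hw1 : (n : ℝ) / d < 1 := by rw [div_lt_one hd0]; exact hnd'
  have h := binEntropy_le_cross h0 h1 hw0 hw1
  have e : 1 - (n : ℝ) / d = ((d - n : ℕ) : ℝ) / d := by
    rw [Nat.cast_sub hnd.le]; field_simp
  rw [e] at h
  have hu := le_nlUp (n := n) (d := d) hn hnd.le
  have hv := le_nlUp (n := d - n) (d := d) (by omega) (by omega)
  have ha' : ((nlUp (d - n) d : ℚ) : ℝ) ≤ a := by exact_mod_cast ha
  have hab' : ((nlUp n d : ℚ) : ℝ) ≤ a + b := by exact_mod_cast hab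
  have f1 := mul_le_mul_of_nonneg_left (hu.trans hab') h0
  have f2 := mul_le_mul_of_nonneg_left (hv.trans ha') (show 0 ≤ 1 - x by linarith)
  rw [hb_eq]
  linarith

theorem cap1 {x : ℝ} (h0 : 0 ≤ x) (h1 : x ≤ 1) : hb x ≤ 69315 / 100000 := by
  have := hb_le_log_two h0 h1
  have l2 := Real.log_two_lt_d9
  linarith

theorem cap2 {x : ℝ} (h0 : 0 ≤ x) (h1 : x ≤ 1) :
    hb x ≤ 16252 / 100000 + 173460 / 100000 * x := by
  have h := cap_of (n := 3) (d := 20) (a := 16252 / 100000) (b := 173460 / 100000) (by norm_num)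
    (by norm_num) (by decide +kernel) (by decide +kernel) h0 h1
  push_cast at h
  exact h

theorem cap3 {x : ℝ} (h0 : 0 ≤ x) (h1 : x ≤ 1) :
    hb x ≤ 35668 / 100000 + 84730 / 100000 * x := by
  have h := cap_of (n := 3) (d := 10) (a := 35668 / 100000) (b := 84730 / 100000) (by norm_num)
    (by norm_num) (by decide +kernel) (by decide +kernel) h0 h1
  push_cast at h
  exact h

theorem cap4 {x : ℝ} (h0 : 0 ≤ x) (h1 : x ≤ 1) :
    hb x ≤ 160944 / 100000 + -(138629 / 100000) * x := by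
  have h := cap_of (n := 4) (d := 5) (a := 160944 / 100000) (b := -(138629 / 100000))
    (by norm_num) (by norm_num) (by decide +kernel) (by decide +kernel) h0 h1
  push_cast at h
  exact h

theorem cap5 {x : ℝ} (h0 : 0 ≤ x) (h1 : x ≤ 1) :
    hb x ≤ 283322 / 100000 + -(277259 / 100000) * x := by
  have h := cap_of (n := 16) (d := 17) (a := 283322 / 100000) (b := -(277259 / 100000))
    (by norm_num) (by norm_num) (by decide +kernel) (by decide +kernel) h0 h1
  push_cast at h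
  exact h

theorem hb_ge' {x : ℝ} (_h0 : 613 / 1000 ≤ x) (h1 : x ≤ 619 / 1000) : 6645 / 10000 ≤ hb x := by
  have h2 : hb (619 / 1000) ≤ hb x := by
    rw [hb_eq, hb_eq]
    apply Real.binEntropy_strictAntiOn.antitoneOn
    · constructor <;> linarith
    · constructor <;> norm_num
    · exact h1
  refine le_trans ?_ h2
  have h3 : (6645 / 10000 : ℚ) ≤ HLo 619 1000 := by decide +kernel
  have h4 := HLo_le 619 1000 (by norm_num)
  have h5 : ((6645 / 10000 : ℚ) : ℝ) ≤ ((HLo 619 1000 : ℚ) : ℝ) := by exact_mod_cast h3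
  rw [hb_eq]
  push_cast at h4 h5
  exact h5.trans h4

theorem hb_le' {x : ℝ} (h0 : 613 / 1000 ≤ x) (h1 : x ≤ 619 / 1000) : hb x ≤ 6674 / 10000 := by
  have h2 : hb x ≤ hb (613 / 1000) := by
    rw [hb_eq, hb_eq]
    apply Real.binEntropy_strictAntiOn.antitoneOn
    · constructor <;> norm_num
    · constructor <;> linarith
    · exact h0
  refine h2.trans ?_
  have h3 : (613 / 1000 : ℚ) * nlUp 613 1000 + 387 / 1000 * nlUp 387 1000 ≤ 6674 / 10000 := by
    decide +kernel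
  have h4 : (((613 / 1000 : ℚ) * nlUp 613 1000 + 387 / 1000 * nlUp 387 1000 : ℚ) : ℝ) ≤
      ((6674 / 10000 : ℚ) : ℝ) := by exact_mod_cast h3
  have h5 := binEntropy_le_cross (z := 613 / 1000) (w := 613 / 1000) (by norm_num) (by norm_num)
    (by norm_num) (by norm_num)
  have h6 := le_nlUp (n := 613) (d := 1000) (by norm_num) (by norm_num)
  have h7 := le_nlUp (n := 387) (d := 1000) (by norm_num) (by norm_num)
  rw [hb_eq]
  push_cast at h4 h6 h7
  norm_num at h4 h5 h6 h7 ⊢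
  linarith

theorem kap : 10434 / 100000 ≤ 111 / 500 * log (8 / 5 : ℝ) ∧
    111 / 500 * log (8 / 5 : ℝ) ≤ 104355 / 1000000 := by
  have e : log (8 / 5 : ℝ) = -log ((5 : ℕ) / (8 : ℕ) : ℝ) := by
    rw [← Real.log_inv]; norm_num
  have h1 := nlLo_le (n := 5) (d := 8) (by norm_num) (by norm_num)
  have h2 := le_nlUp (n := 5) (d := 8) (by norm_num) (by norm_num)
  have h3 : (47 / 100 : ℚ) ≤ nlLo 5 8 := by decide +kernel
  have h4 : nlUp 5 8 ≤ (47005 / 100000 : ℚ) := by decide +kernel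
  have h3' : ((47 / 100 : ℚ) : ℝ) ≤ ((nlLo 5 8 : ℚ) : ℝ) := by exact_mod_cast h3
  have h4' : ((nlUp 5 8 : ℚ) : ℝ) ≤ ((47005 / 100000 : ℚ) : ℝ) := by exact_mod_cast h4
  rw [e]
  push_cast at h1 h2 h3' h4' ⊢
  constructor <;> linarith

theorem kc : -(1215 / 100000) ≤ 111 / 500 * log (160 / 169 : ℝ) := by
  have h2 := le_nlUp (n := 160) (d := 169) (by norm_num) (by norm_num)
  have h4 : nlUp 160 169 ≤ (547253 / 10000000 : ℚ) := by decide +kernel
  have h4' : ((nlUp 160 169 : ℚ) : ℝ) ≤ ((547253 / 10000000 : ℚ) : ℝ) := by exact_mod_cast h4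
  push_cast at h2 h4' ⊢
  linarith

theorem nu_sq_le {p : ℕ × ℕ} (hp : p ∈ prs) {x : ℝ} (h0 : 0 ≤ x) (h1 : x ≤ 1) :
    nu x ^ 2 ≤ hb x * ((p.1 : ℝ) / 1000 * x + (p.2 : ℝ) / 10000 * hb x) := by
  unfold nu
  rw [Real.sq_sqrt (Pool.Agent.H867.UCT01.NN_diag_nonneg h0 h1)]
  simp only [prs, List.mem_cons, List.not_mem_nil, or_false] at hp
  rcases hp with rfl | rfl | rfl | rfl | rfl | rfl
  · exact pair_of pr1 h0 h1
  · exact pair_of pr2 h0 h1
  · exact pair_of pr3 h0 h1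
  · exact pair_of pr4 h0 h1
  · exact pair_of pr5 h0 h1
  · exact pair_of pr6 h0 h1

/-- kernel bounds on a class -/
theorem avT_nu_pair {F : Finset (Finset α)} {T S : Finset α} (hTS : T ⊆ S) (j : α) {A : Finset α}
    (hA : A ∈ F) {p : ℕ × ℕ} (hp : p ∈ prs) : (avT nu F T S j A) ^ 2 ≤ avT hb F T S j A *
      ((p.1 : ℝ) / 1000 * xv F T j A + (p.2 : ℝ) / 10000 * avT hb F T S j A) := by
  have hc : (0 : ℝ) < (cl F T A).card := by exact_mod_cast cl_card_pos hA
  have h2 := avT_id hTS j hA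
  unfold avT at h2 ⊢
  rw [← h2]
  have h3 : (∑ B ∈ cl F T A, nu (xv F S j B)) ^ 2 ≤ (∑ B ∈ cl F T A, hb (xv F S j B)) *
      ∑ B ∈ cl F T A, ((p.1 : ℝ) / 1000 * xv F S j B + (p.2 : ℝ) / 10000 * hb (xv F S j B)) := by
    apply Finset.sum_sq_le_sum_mul_sum_of_sq_le_mul
    · intro B _
      exact hb_nonneg (xv_nonneg F S j B) (xv_le_one F S j B)
    · intro B _
      have := hb_nonneg (xv_nonneg F S j B) (xv_le_one F S j B)
      have := xv_nonneg F S j B
      positivity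
    · intro B _
      exact nu_sq_le hp (xv_nonneg F S j B) (xv_le_one F S j B)
  rw [sum_add_distrib, ← mul_sum, ← mul_sum] at h3
  obtain ⟨c, hcd⟩ : ∃ c : ℝ, c = ((cl F T A).card : ℝ) := ⟨_, rfl⟩
  obtain ⟨s1, hs1⟩ : ∃ t : ℝ, t = ∑ B ∈ cl F T A, nu (xv F S j B) := ⟨_, rfl⟩
  obtain ⟨s2, hs2⟩ : ∃ t : ℝ, t = ∑ B ∈ cl F T A, hb (xv F S j B) := ⟨_, rfl⟩
  obtain ⟨s3, hs3⟩ : ∃ t : ℝ, t = ∑ B ∈ cl F T A, xv F S j B := ⟨_, rfl⟩
  rw [← hs1, ← hs2, ← hs3] at h3
  rw [← hcd] at hc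
  rw [← hs1, ← hs2, ← hs3, ← hcd]
  have e1 : (s1 / c) ^ 2 = s1 ^ 2 / c ^ 2 := div_pow _ _ _
  have e2 : s2 / c * ((p.1 : ℝ) / 1000 * (s3 / c) + (p.2 : ℝ) / 10000 * (s2 / c)) =
      s2 * ((p.1 : ℝ) / 1000 * s3 + (p.2 : ℝ) / 10000 * s2) / c ^ 2 := by
    field_simp
  rw [e1, e2]
  exact div_le_div_of_nonneg_right h3 (by positivity)

/-- the hypotheses of the law inequalities for the classes -/
theorem law_hyp (F : Finset (Finset α)) {T S : Finset α} (hTS : T ⊆ S) (j : α) :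
    (∀ A ∈ F, avT hb F T S j A ≤ 69315 / 100000) ∧
    (∀ A ∈ F, avT hb F T S j A ≤ 16252 / 100000 + 173460 / 100000 * xv F T j A) ∧
    (∀ A ∈ F, avT hb F T S j A ≤ 35668 / 100000 + 84730 / 100000 * xv F T j A) ∧
    (∀ A ∈ F, avT hb F T S j A ≤ 160944 / 100000 - 138629 / 100000 * xv F T j A) ∧
    (∀ A ∈ F, avT hb F T S j A ≤ 283322 / 100000 - 277259 / 100000 * xv F T j A) ∧
    (∀ A ∈ F, (avT nu F T S j A) ^ 2 ≤ 382 / 1000 * (xv F T j A * avT hb F T S j A)) := by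
  refine ⟨fun A hA => ?_, fun A hA => ?_, fun A hA => ?_, fun A hA => ?_, fun A hA => ?_,
    fun A hA => ?_⟩
  · have := avT_hb_le hTS j hA (a := 69315 / 100000) (b := 0)
      (fun x h0 h1 => by linarith [cap1 h0 h1])
    simpa using this
  · exact avT_hb_le hTS j hA (fun x h0 h1 => cap2 h0 h1)
  · exact avT_hb_le hTS j hA (fun x h0 h1 => cap3 h0 h1)
  · have := avT_hb_le hTS j hA (fun x h0 h1 => cap4 h0 h1)
    linarith
  · have := avT_hb_le hTS j hA (fun x h0 h1 => cap5 h0 h1)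
    linarith
  · have := avT_nu_sq hTS j hA
    linarith

/-- elements of `J \ T` -/
theorem G12_J (F : Finset (Finset α)) (hne : F.Nonempty) {T S : Finset α} (hTS : T ⊆ S) (j : α)
    (hm : 613 / 1000 * (F.card : ℝ) ≤ M0 F j) (hm2 : (M0 F j : ℝ) ≤ 619 / 1000 * F.card)
    (he : 11 / 20 * Sg hb F ∅ j ≤ Sg hb F S j) :
    1 / 200000 * (F.card : ℝ)
      + max 0 (1 - 809 / 500 * ((M0 F j : ℝ) / F.card)) * (6674 / 10000) * F.card
      - 111 / 500 * ((F.card : ℝ) * log (160 / 169) +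
          log (8 / 5) * ∑ A ∈ F, xv F T j A * (1 - xv F T j A))
      ≤ G1 F S j + 111 / 500 * G2 F T S j := by
  have hn : (0 : ℝ) < F.card := by exact_mod_cast hne.card_pos
  set n : ℝ := (F.card : ℝ) with hndef
  set m : ℝ := (M0 F j : ℝ) / n with hmdef
  set e : ℝ := Sg hb F S j / n with hedef
  have hmn : (M0 F j : ℝ) = m * n := by rw [hmdef]; field_simp
  have hen : Sg hb F S j = e * n := by rw [hedef]; field_simp
  have hm1' : 613 / 1000 ≤ m := by rw [hmdef, le_div_iff₀ hn]; exact hm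
  have hm2' : m ≤ 619 / 1000 := by rw [hmdef, div_le_iff₀ hn]; exact hm2
  have hS0 : Sg hb F ∅ j = n * hb m := by
    unfold Sg
    rw [Finset.sum_congr rfl fun A _ => by rw [xv_empty], Finset.sum_const, nsmul_eq_mul]
  have he1 : 3654 / 10000 ≤ e := by
    rw [hedef, le_div_iff₀ hn]
    refine le_trans ?_ he
    rw [hS0]
    have := hb_ge' hm1' hm2'
    nlinarith
  have he2 : e ≤ 6674 / 10000 := by
    rw [hedef, div_le_iff₀ hn]
    refine (Sg_hb_mono F (Finset.empty_subset S) j).trans ?_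
    rw [hS0]
    have := hb_le' hm1' hm2'
    nlinarith
  -- the law
  set z : Finset α → ℝ := fun A => xv F T j A with hz
  set η : Finset α → ℝ := fun A => avT hb F T S j A with hη
  set k : Finset α → ℝ := fun A => avT nu F T S j A with hk
  have hsz : ∑ A ∈ F, z A = m * F.card := (sum_xv F T j).trans hmn
  have hsη : ∑ A ∈ F, η A = e * F.card := (sum_avT hb F T S j).trans hen
  have hsk : ∑ A ∈ F, k A = Sg nu F S j := sum_avT nu F T S j
  obtain ⟨t1, t2, t3, t4, t5, t6⟩ := law_hyp F hTS j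
  have hlaw := law_on F hne z η k (fun A _ => xv_nonneg F T j A) (fun A _ => xv_le_one F T j A)
    (fun A _ => avT_hb_nonneg F T S j A) t1 t2 t3 t4 t5 t6
    (fun A hA p hp => avT_nu_pair hTS j hA hp) hsz hsη hm1' hm2' he1 he2 kap.1 kap.2 kc
  rw [← hndef, hsk] at hlaw
  -- first gain
  have hG1 : G1 F S j = n * ((2 * m - 1) * e - (Sg nu F S j / n) ^ 2) := by
    unfold G1
    rw [hmn, hen, ← hndef]
    field_simp
    ring
  -- second gain
  have hG2 : G2 F T S j = ∑ A ∈ F, (2 * z A * η A - k A ^ 2) - e * n := by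
    unfold G2
    rw [hen]
  have hvar : ∑ A ∈ F, xv F T j A * (1 - xv F T j A) = n * (m - (∑ A ∈ F, z A ^ 2) / n) := by
    have h1 : ∑ A ∈ F, xv F T j A * (1 - xv F T j A) = ∑ A ∈ F, z A - ∑ A ∈ F, z A ^ 2 := by
      rw [← Finset.sum_sub_distrib]
      exact Finset.sum_congr rfl fun A _ => by show z A * (1 - z A) = _; ring
    have h4 : n * ((∑ A ∈ F, z A ^ 2) / n) = ∑ A ∈ F, z A ^ 2 := mul_div_cancel₀ _ hn.ne'
    rw [h1, hsz, ← hndef, mul_sub, h4, mul_comm m n]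
  rw [hvar, hG1, hG2]
  have hlaw' := mul_le_mul_of_nonneg_left hlaw hn.le
  set W : ℝ := (∑ A ∈ F, (2 * z A * η A - k A ^ 2)) / n with hWdef
  have hW : n * W = ∑ A ∈ F, (2 * z A * η A - k A ^ 2) := by rw [hWdef]; field_simp
  set Z2 : ℝ := (∑ A ∈ F, z A ^ 2) / n with hZ2
  rw [← hW]
  linarith [hlaw']

/-- elements of `T` -/
theorem G1_T (F : Finset (Finset α)) (hne : F.Nonempty) (S : Finset α) (j : α)
    (hm : 613 / 1000 * (F.card : ℝ) ≤ M0 F j) (hm2 : (M0 F j : ℝ) ≤ 619 / 1000 * F.card) :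
    -(max 0 (1 - 809 / 500 * ((M0 F j : ℝ) / F.card)) * (6674 / 10000) * F.card) ≤
      G1 F S j := by
  obtain ⟨m, e, R, K, n, hnd, hn, hM, hm0, hm1, hS, he0, hR, hR0, hRe, hK0, hK2, hK1, hG⟩ :=
    G1_data F hne S j
  rw [hG, ← hnd, hM]
  rw [← hnd, hM] at hm hm2
  have hm' : 613 / 1000 ≤ m := le_of_mul_le_mul_right hm hn
  have hm2' : m ≤ 619 / 1000 := le_of_mul_le_mul_right hm2 hn
  have hmn : m * n / n = m := by field_simp
  rw [hmn]
  have he : e ≤ 6674 / 10000 := by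
    have h1 := Sg_hb_mono F (Finset.empty_subset S) j
    rw [Sg_empty, hS, ← hnd, hM, hmn] at h1
    have h2 := hb_le' hm' hm2'
    have h3 : e * n ≤ (6674 / 10000) * n := by nlinarith
    exact le_of_mul_le_mul_right h3 hn
  have h5 : -(max 0 (1 - 809 / 500 * m) * (6674 / 10000)) ≤ 2 * m * e - K ^ 2 - e := by
    have h6 : (809 / 500 * m - 1) * e ≤ 2 * m * e - K ^ 2 - e := by nlinarith
    have h7 : (1 - 809 / 500 * m) * e ≤ max 0 (1 - 809 / 500 * m) * (6674 / 10000) := by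
      calc (1 - 809 / 500 * m) * e ≤ max 0 (1 - 809 / 500 * m) * e :=
            mul_le_mul_of_nonneg_right (le_max_right _ _) he0
        _ ≤ _ := mul_le_mul_of_nonneg_left he (le_max_left _ _)
    linarith
  have h8 := mul_le_mul_of_nonneg_right h5 hn.le
  linarith

/-- elements outside `J`, middle range -/
theorem G12_mid (F : Finset (Finset α)) (hne : F.Nonempty) {T S : Finset α} (hTS : T ⊆ S) (j : α)
    {m e n : ℝ} (hnd : n = (F.card : ℝ)) (hn : 0 < n) (hM : (M0 F j : ℝ) = m * n)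
    (hS : Sg hb F S j = e * n) (hm1 : 613 / 1000 ≤ m) (hm2 : m ≤ 619 / 1000)
    (he1 : 5 / 64 ≤ e) (he2 : e ≤ 36707 / 100000) :
    1 / 4000 * Sg hb F S j ≤ G1 F S j + 111 / 500 * G2 F T S j := by
  set z : Finset α → ℝ := fun A => xv F T j A with hz
  set η : Finset α → ℝ := fun A => avT hb F T S j A with hη
  set k : Finset α → ℝ := fun A => avT nu F T S j A with hk
  have hsz : ∑ A ∈ F, z A = m * F.card := by rw [← hnd]; exact (sum_xv F T j).trans hM
  have hsη : ∑ A ∈ F, η A = e * F.card := by rw [← hnd]; exact (sum_avT hb F T S j).trans hS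
  have hsk : ∑ A ∈ F, k A = Sg nu F S j := sum_avT nu F T S j
  obtain ⟨t1, t2, t3, t4, t5, t6⟩ := law_hyp F hTS j
  have hlaw := law_mid F hne z η k (fun A _ => xv_nonneg F T j A) (fun A _ => xv_le_one F T j A)
    (fun A _ => avT_hb_nonneg F T S j A) t1 t2 t3 t4 t5 t6
    (fun A hA p hp => avT_nu_pair hTS j hA hp) hsz hsη hm1 hm2 he1 he2
  rw [← hnd, hsk] at hlaw
  have hG1 : G1 F S j = n * ((2 * m - 1) * e - (Sg nu F S j / n) ^ 2) := by
    unfold G1
    rw [hM, hS, ← hnd]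
    field_simp
    ring
  have hG2 : G2 F T S j = ∑ A ∈ F, (2 * z A * η A - k A ^ 2) - e * n := by
    unfold G2
    rw [hS]
  rw [hG1, hG2, hS]
  have hlaw' := mul_le_mul_of_nonneg_left hlaw hn.le
  set W : ℝ := (∑ A ∈ F, (2 * z A * η A - k A ^ 2)) / n with hWdef
  have hW : n * W = ∑ A ∈ F, (2 * z A * η A - k A ^ 2) := by rw [hWdef]; field_simp
  rw [← hW]
  linarith [hlaw']

/-- elements outside `J` -/
theorem G12_R (F : Finset (Finset α)) (hne : F.Nonempty) {T S : Finset α} (hTS : T ⊆ S) (j : α)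
    (hm : 613 / 1000 * (F.card : ℝ) ≤ M0 F j)
    (he : (M0 F j : ℝ) ≤ 619 / 1000 * F.card → Sg hb F S j ≤ 11 / 20 * Sg hb F ∅ j) :
    1 / 4000 * Sg hb F S j ≤ G1 F S j + 111 / 500 * G2 F T S j := by
  obtain ⟨m, e, R, K, n, hnd, hn, hM, hm0, hm1, hS, he0, hR, hR0, hRe, hK0, hK2, hK1, hG⟩ :=
    G1_data F hne S j
  obtain ⟨W, hW, hG2⟩ := G2_data F hne hTS j hnd hn hR hS
  have hmn : m * n / n = m := by field_simp
  rw [Sg_empty, hS, ← hnd, hM, hmn] at he
  rw [← hnd, hM] at hm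
  have hm' : 613 / 1000 ≤ m := le_of_mul_le_mul_right hm hn
  have fin : 1 / 4000 * e ≤ (2 * m - 1222 / 1000) * e - K ^ 2 + 359196 / 1000000 * W →
      1 / 4000 * Sg hb F S j ≤ G1 F S j + 111 / 500 * G2 F T S j := by
    intro key
    rw [hG, hS]
    have h5 := mul_le_mul_of_nonneg_right key hn.le
    linarith
  rcases le_total m (619 / 1000) with h | h
  · have h1 := he (mul_le_mul_of_nonneg_right h hn.le)
    have h2 := hb_le' hm' h
    have h3 : e * n ≤ (36707 / 100000) * n := by nlinarith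
    have h4 : e ≤ 36707 / 100000 := le_of_mul_le_mul_right h3 hn
    rcases le_total e (5 / 64) with h6 | h6
    · exact fin (law_off hm' he0 h6 hK0 hK1 hW)
    · exact G12_mid F hne hTS j hnd hn hM hS hm' h h6 h4
  · exact fin (law_big h he0 hRe hK2 hW)

end Pool.Agent.H775.UC387
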