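import Mathlib
import Pool.Agent.H775.UC387.Gain
import Pool.Graph.R_seed8.H286R2.UC.Final

set_option autoImplicit false

/-! Final assembly, constant `0.387` (follows the assembly for `0.386`). -/

namespace Pool.Agent.H775.UC387

open Real Finset Pool.Agent.H117R2 Pool.Agent.H117R2.UC Pool.Agent.H286R2.UC

variable {α : Type*} [DecidableEq α]

theorem union_closed_387 (F : Finset (Finset α)) (hF : ∀ X ∈ F, ∀ Y ∈ F, X ∪ Y ∈ F)
    (hne : ∃ S ∈ F, S.Nonempty) :
    ∃ x : α, 387 / 1000 * (F.card : ℝ) ≤ (F.filter (fun S => x ∈ S)).card := by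
  by_contra hcon
  push Not at hcon
  obtain ⟨S0, hS0, x0, hx0⟩ := hne
  have hFne : F.Nonempty := ⟨S0, hS0⟩
  have hn : (0 : ℝ) < F.card := by
    have := hFne.card_pos
    exact_mod_cast this
  have hM : ∀ x, 613 / 1000 * (F.card : ℝ) ≤ M0 F x := by
    intro x
    have h1 := hcon x
    have h2 := M0_add F x
    linarith
  have hn2 : 2 ≤ F.card := by
    by_contra h
    have h1 : F.card = 1 := by
      have := hFne.card_pos
      omega
    have h2 := hcon x0
    have h3 : (1 : ℝ) ≤ (F.filter (fun S => x0 ∈ S)).card := by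
      have : 0 < (F.filter (fun S => x0 ∈ S)).card :=
        card_pos.mpr ⟨S0, mem_filter.mpr ⟨hS0, hx0⟩⟩
      exact_mod_cast this
    rw [h1] at h2
    norm_num at h2
    linarith
  have hlog : 0 < log (F.card : ℝ) := log_pos (by exact_mod_cast hn2)
  -- ground set
  obtain ⟨U, hU⟩ : ∃ U : Finset α, U = F.biUnion id := ⟨_, rfl⟩
  obtain ⟨V, hV⟩ : ∃ V : Finset α, V = U.filter (fun j => (M0 F j : ℝ) ≤ 619 / 1000 * F.card) :=
    ⟨_, rfl⟩
  obtain ⟨J, hJV, hJ1, hJ2⟩ := exists_J F V (fun j => 11 / 20 * Sg hb F ∅ j)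
  have hVU : V ⊆ U := by rw [hV]; exact filter_subset _ _
  have hJU : J ⊆ U := hJV.trans hVU
  have hJm : ∀ j ∈ J, (M0 F j : ℝ) ≤ 619 / 1000 * F.card := by
    intro j hj
    have := hJV hj
    rw [hV, mem_filter] at this
    exact this.2
  obtain ⟨lJ, hlJ⟩ : ∃ lJ : List α, lJ = J.toList := ⟨_, rfl⟩
  obtain ⟨lR, hlR⟩ : ∃ lR : List α, lR = (U \ J).toList := ⟨_, rfl⟩
  have hlJn : lJ.Nodup := hlJ ▸ nodup_toList _
  have hlRn : lR.Nodup := hlR ▸ nodup_toList _
  have hlJf : lJ.toFinset = J := by rw [hlJ]; exact toList_toFinset J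
  have hlRf : lR.toFinset = U \ J := by rw [hlR]; exact toList_toFinset _
  have hmemJ : ∀ j, j ∈ lJ ↔ j ∈ J := by intro j; rw [hlJ]; exact mem_toList
  have hmemR : ∀ j, j ∈ lR ↔ j ∈ U \ J := by intro j; rw [hlR]; exact mem_toList
  have hdisj : List.Disjoint lJ lR := by
    intro j h1 h2
    rw [hmemJ] at h1
    rw [hmemR, mem_sdiff] at h2
    exact h2.2 h1
  have hnodup : (lJ ++ lR).Nodup := List.nodup_append'.mpr ⟨hlJn, hlRn, hdisj⟩
  have hsepU : ∀ l : List α, (∀ j ∈ U, j ∈ l) → Sep F l := by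
    intro l hl X hX Y hY h
    ext g
    by_cases hg : g ∈ U
    · exact h g (hl g hg)
    · have h1 : g ∉ X := fun h' => hg (by rw [hU]; exact mem_biUnion.mpr ⟨X, hX, h'⟩)
      have h2 : g ∉ Y := fun h' => hg (by rw [hU]; exact mem_biUnion.mpr ⟨Y, hY, h'⟩)
      exact ⟨fun h => absurd h h1, fun h => absurd h h2⟩
  have hsep : Sep F (lJ ++ lR) := by
    apply hsepU
    intro j hj
    rw [List.mem_append, hmemJ, hmemR, mem_sdiff]
    by_cases h : j ∈ J
    · exact Or.inl h
    · exact Or.inr ⟨hj, h⟩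
  have hST := ST F hF hFne lJ lR hnodup hsep (θ := 3 / 13) (by norm_num) (by norm_num)
  rw [show (1 : ℝ) - (3 / 13) ^ 2 = 160 / 169 by norm_num,
    show (1 + (3 / 13 : ℝ)) / (1 - 3 / 13) = 8 / 5 by norm_num, hlJf] at hST
  -- the loss term
  obtain ⟨b, hb'⟩ : ∃ b : α → ℝ, b = fun j =>
    max 0 (1 - 809 / 500 * ((M0 F j : ℝ) / F.card)) * (6674 / 10000) * F.card := ⟨_, rfl⟩
  obtain ⟨D, hD⟩ : ∃ D : Finset α → α → ℝ, D = fun T j => (F.card : ℝ) * log (160 / 169) +
          log (8 / 5) * ∑ A ∈ F, xv F T j A * (1 - xv F T j A) := ⟨_, rfl⟩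
  have key : ∀ T ∈ J.powerset, -(∑ j ∈ T, b j) + ∑ j ∈ J \ T, b j +
      (1 / 200000 * (F.card : ℝ) * (J \ T).card + 1 / 4000 * chainSum (Sg hb F) J lR) ≤
      111 / 500 * (chainSum (G2 F T) T (lJ.filter (fun j => j ∉ T) ++ lR) + ∑ j ∈ J \ T, D T j) := by
    intro T hT
    have hTJ : T ⊆ J := mem_powerset.mp hT
    have hf1 : (lJ.filter (fun j => j ∈ T)).toFinset = T := by
      ext j
      simp only [List.mem_toFinset, List.mem_filter, decide_eq_true_eq, hmemJ]
      exact ⟨fun h => h.2, fun h => ⟨hTJ h, h⟩⟩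
    have hf2 : (lJ.filter (fun j => j ∉ T)).toFinset = J \ T := by
      ext j
      simp only [List.mem_toFinset, List.mem_filter, decide_eq_true_eq, hmemJ, mem_sdiff]
    have hn1 : (lJ.filter (fun j => j ∈ T)).Nodup := hlJn.filter _
    have hn2' : (lJ.filter (fun j => j ∉ T)).Nodup := hlJn.filter _
    -- independent coupling
    have hC := C0 F hF hFne (lJ.filter (fun j => j ∈ T) ++ (lJ.filter (fun j => j ∉ T) ++ lR))
      (by
        rw [List.nodup_append']
        refine ⟨hn1, ?_, ?_⟩
        · rw [List.nodup_append']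
          refine ⟨hn2', hlRn, ?_⟩
          intro j h1 h2
          exact hdisj (List.mem_of_mem_filter h1) h2
        · intro j h1 h2
          rw [List.mem_filter, decide_eq_true_eq] at h1
          rw [List.mem_append, List.mem_filter, decide_eq_true_eq] at h2
          rcases h2 with h2 | h2
          · exact h2.2 h1.2
          · exact hdisj h1.1 h2)
      (by
        apply hsepU
        intro j hj
        simp only [List.mem_append, List.mem_filter, decide_eq_true_eq, hmemJ, hmemR, mem_sdiff]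
        by_cases h : j ∈ J
        · by_cases h' : j ∈ T
          · exact Or.inl ⟨h, h'⟩
          · exact Or.inr (Or.inl ⟨h, h'⟩)
        · exact Or.inr (Or.inr ⟨hj, h⟩))
    rw [chainSum_append, chainSum_append, hf1, empty_union, hf2,
      union_sdiff_of_subset hTJ] at hC
    rw [chainSum_append, hf2, union_sdiff_of_subset hTJ]
    -- elements of `T`
    have h1 : -(∑ j ∈ T, b j) ≤ chainSum (G1 F) ∅ (lJ.filter (fun j => j ∈ T)) := by
      have e : -(∑ j ∈ T, b j) = chainSum (fun _ j => -(b j)) ∅ (lJ.filter (fun j => j ∈ T)) := by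
        rw [chainSum_const _ _ _ hn1, hf1, sum_neg_distrib]
      rw [e]
      apply chainSum_le
      intro l1 j l2 hl
      have hj : j ∈ lJ.filter (fun j => j ∈ T) := by rw [hl]; simp
      rw [List.mem_filter, decide_eq_true_eq, hmemJ] at hj
      rw [hb']
      exact G1_T F hFne _ j (hM j) (hJm j hj.1)
    -- elements of `J \ T`
    have h2 : ∑ j ∈ J \ T, (1 / 200000 * (F.card : ℝ) + b j - 111 / 500 * D T j) ≤
        chainSum (fun S j => G1 F S j + 111 / 500 * G2 F T S j) T (lJ.filter (fun j => j ∉ T)) := by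
      have e : ∑ j ∈ J \ T, (1 / 200000 * (F.card : ℝ) + b j - 111 / 500 * D T j) =
          chainSum (fun _ j => 1 / 200000 * (F.card : ℝ) + b j - 111 / 500 * D T j) T
            (lJ.filter (fun j => j ∉ T)) := by
        rw [chainSum_const _ _ _ hn2', hf2]
      rw [e]
      apply chainSum_le
      intro l1 j l2 hl
      have hj : j ∈ lJ.filter (fun j => j ∉ T) := by rw [hl]; simp
      rw [List.mem_filter, decide_eq_true_eq, hmemJ] at hj
      rw [hb', hD]
      refine G12_J F hFne subset_union_left j (hM j) (hJm j hj.1) ?_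
      apply hJ1 j hj.1
      intro k hk
      rw [mem_erase]
      rw [mem_union, List.mem_toFinset] at hk
      rcases hk with hk | hk
      · exact ⟨fun h => hj.2 (h ▸ hk), hTJ hk⟩
      · constructor
        · rintro rfl
          have := hn2'
          rw [hl, List.nodup_append'] at this
          exact this.2.2 hk (by simp)
        · have hk' : k ∈ lJ.filter (fun j => j ∉ T) := by rw [hl]; simp [hk]
          rw [List.mem_filter, hmemJ] at hk'
          exact hk'.1
    -- elements outside `J`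
    have h3 : 1 / 4000 * chainSum (Sg hb F) J lR ≤
        chainSum (fun S j => G1 F S j + 111 / 500 * G2 F T S j) J lR := by
      rw [← chainSum_mul]
      apply chainSum_le
      intro l1 j l2 hl
      have hj : j ∈ lR := by rw [hl]; simp
      rw [hmemR, mem_sdiff] at hj
      refine G12_R F hFne (hTJ.trans subset_union_left) j (hM j) ?_
      intro hm
      apply hJ2 j _ _ subset_union_left
      rw [mem_sdiff, hV, mem_filter]
      exact ⟨⟨hj.1, hm⟩, hj.2⟩
    rw [chainSum_add, chainSum_mul] at h2 h3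
    have e4 : ∑ j ∈ J \ T, (1 / 200000 * (F.card : ℝ) + b j - 111 / 500 * D T j) =
        1 / 200000 * (F.card : ℝ) * (J \ T).card + ∑ j ∈ J \ T, b j -
          111 / 500 * ∑ j ∈ J \ T, D T j := by
      rw [sum_sub_distrib, sum_add_distrib, sum_const, nsmul_eq_mul, ← mul_sum]
      ring
    rw [e4] at h2
    linarith
  have htot := sum_le_sum key
  rw [← mul_sum] at htot
  have hST' : ∑ T ∈ J.powerset, (chainSum (G2 F T) T (lJ.filter (fun j => j ∉ T) ++ lR) +
      ∑ j ∈ J \ T, D T j) ≤ 0 := by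
    rw [hD]; exact hST
  rw [sum_add_distrib, sum_add_distrib, sum_neg_distrib, sum_compl J b] at htot
  have hpos : ∀ T ∈ J.powerset, 0 ≤ 1 / 200000 * (F.card : ℝ) * (J \ T).card +
      1 / 4000 * chainSum (Sg hb F) J lR := by
    intro T _
    have h0 : 0 ≤ chainSum (Sg hb F) J lR := by
      have : chainSum (fun _ _ => (0 : ℝ)) J lR ≤ chainSum (Sg hb F) J lR := by
        apply chainSum_le
        intro l1 j l2 _
        apply sum_nonneg
        intro A _
        exact add_nonneg (negMulLog_nonneg (xv_nonneg _ _ _ _) (xv_le_one _ _ _ _))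
          (negMulLog_nonneg (by linarith [xv_le_one F (J ∪ l1.toFinset) j A])
            (by linarith [xv_nonneg F (J ∪ l1.toFinset) j A]))
      rw [chainSum_const _ _ _ hlRn] at this
      simpa using this
    positivity
  have hle : 1 / 200000 * (F.card : ℝ) * (J \ ∅).card + 1 / 4000 * chainSum (Sg hb F) J lR ≤ 0 := by
    have h1 := single_le_sum hpos (empty_mem_powerset J)
    linarith
  rw [sdiff_empty, chainSum_hb, HH_sep (l := lJ ++ lR) (by
    rw [List.toFinset_append, hlJf, hlRf]) hsep] at hle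
  rcases J.eq_empty_or_nonempty with hJe | hJe
  · rw [hJe, HH_empty] at hle
    have : 0 < (F.card : ℝ) * log F.card := mul_pos hn hlog
    simp at hle
    linarith
  · have h1 : (0 : ℝ) < J.card := by exact_mod_cast hJe.card_pos
    have h2 : HH F J ≤ 0 := by
      apply sum_nonpos
      intro A hA
      have : (1 : ℝ) ≤ (cl F J A).card := by exact_mod_cast cl_card_pos hA
      have := log_nonneg this
      linarith
    have h3 : 0 < 1 / 200000 * (F.card : ℝ) * J.card := by positivity
    linarith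

end Pool.Agent.H775.UC387
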